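import Pool.Agent.Lib_MP_55d5ef_b3.Num
import Pool.Agent.Lib_MP_55d5ef_fl.Gen

/-!
# `MP_55d5ef_gt`, level B, step B3: attaching `D² × T²` or the cone over `S¹ × T²`

`R`: the other records, with facet numbers `numR` (`< 6`: glued to the common boundary, or `≥ 100`)
and orderings `odR`.  `XN` is the space with `D² × T²`, `XC` the space with the cone.
-/

open Fl49

namespace B3

variable {R : Type}

/-- the assumptions on the other records -/
structure ROk (numR : R → Fin 5 → ℕ) (odR : R → Fin 5 → List (Fin 5)) : Prop where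
  num : ∀ r v, numR r v < 6 ∨ 100 ≤ numR r v
  od : ∀ r v, (odR r v).Perm (od5 v)

/-- all records have the five local labels -/
abbrev lab5 {ρ : Type} : ρ → Finset (Fin 5) := fun _ => Finset.univ

/-- facet numbers of the space with `D² × T²` -/
def numN (numR : R → Fin 5 → ℕ) : R ⊕ (Fin 2 × Fin 6) → Fin 5 → ℕ :=
  Sum.elim numR (fun p => numK p.1 p.2)
/-- orderings of the space with `D² × T²` -/
def odN (odR : R → Fin 5 → List (Fin 5)) : R ⊕ (Fin 2 × Fin 6) → Fin 5 → List (Fin 5) :=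
  Sum.elim odR (fun _ => od5)
/-- facet numbers of the space with the cone -/
def numC (numR : R → Fin 5 → ℕ) : R ⊕ (Fin 2 × Fin 3) → Fin 5 → ℕ :=
  Sum.elim numR (fun p => numS p.1 p.2)
/-- orderings of the space with the cone -/
def odC (odR : R → Fin 5 → List (Fin 5)) : R ⊕ (Fin 2 × Fin 3) → Fin 5 → List (Fin 5) :=
  Sum.elim odR (fun _ => od5)

/-- the space with `D² × T²` -/
abbrev XN (numR : R → Fin 5 → ℕ) (odR : R → Fin 5 → List (Fin 5)) : Type :=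
  Fl49.X (lab5 (ρ := R ⊕ (Fin 2 × Fin 6))) (numN numR) (odN odR) Set.univ
/-- the space with the cone -/
abbrev XC (numR : R → Fin 5 → ℕ) (odR : R → Fin 5 → List (Fin 5)) : Type :=
  Fl49.X (lab5 (ρ := R ⊕ (Fin 2 × Fin 3))) (numC numR) (odC odR) Set.univ

theorem mem_Dl {x : Fin 5 → ℝ} : x ∈ Dl (Finset.univ : Finset (Fin 5)) ↔ x ∈ Sx := by
  simp [Dl, Sx, Fin.sum_univ_five]

/-- the first vertex -/
def e0 : Fin 5 → ℝ := ![1, 0, 0, 0, 0]

theorem e0_mem : e0 ∈ Sx := by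
  refine ⟨fun i => ?_, ?_⟩
  · fin_cases i <;> simp [e0]
  · simp [e0]

section chart

variable {ρ : Type} (num : ρ → Fin 5 → ℕ) (od : ρ → Fin 5 → List (Fin 5))

open Classical in
/-- the point with coordinates `x` in the simplex `i` (a fixed point if `x` is not in the
simplex) -/
noncomputable def cp (i : ρ) (x : Fin 5 → ℝ) : Fl49.X (lab5 (ρ := ρ)) num od Set.univ :=
  if hx : x ∈ Sx then Fl49.pt _ num od i (Set.mem_univ i) x (mem_Dl.2 hx)
  else Fl49.pt _ num od i (Set.mem_univ i) e0 (mem_Dl.2 e0_mem)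

variable {num od}

theorem cp_of (i : ρ) {x : Fin 5 → ℝ} (hx : x ∈ Sx) :
    cp num od i x = Fl49.pt _ num od i (Set.mem_univ i) x (mem_Dl.2 hx) := dif_pos hx

theorem cp_glue {i j : ρ} {v w : Fin 5} {x y : Fin 5 → ℝ} (hx : x ∈ Sx) (hy : y ∈ Sx)
    (hn : num i v = num j w) (hxv : x v = 0) (hyw : y w = 0)
    (ho : (od i v).map x = (od j w).map y) : cp num od i x = cp num od j y := by
  rw [cp_of i hx, cp_of j hy]
  exact Fl49.pt_glue _ _ _ _ (Finset.mem_univ v) (Finset.mem_univ w) hn hxv hyw ho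

theorem cp_surj (p : Fl49.X (lab5 (ρ := ρ)) num od Set.univ) :
    ∃ i, ∃ x ∈ Sx, p = cp num od i x := by
  obtain ⟨⟨⟨i, hi⟩, ⟨x, hx⟩⟩, rfl⟩ := Quot.exists_rep p
  refine ⟨i, x, mem_Dl.1 hx, ?_⟩
  rw [cp_of i (mem_Dl.1 hx)]
  rfl

end chart

variable {numR : R → Fin 5 → ℕ} {odR : R → Fin 5 → List (Fin 5)}

/-- charts of `D² × T²` -/
noncomputable def chN (numR : R → Fin 5 → ℕ) (odR : R → Fin 5 → List (Fin 5)) (t : Fin 2)
    (k : Fin 6) (x : Fin 5 → ℝ) : XN numR odR := cp _ _ (Sum.inr (t, k)) x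
/-- charts of the cone -/
noncomputable def chC (numR : R → Fin 5 → ℕ) (odR : R → Fin 5 → List (Fin 5)) (t : Fin 2)
    (k : Fin 3) (x : Fin 5 → ℝ) : XC numR odR := cp _ _ (Sum.inr (t, k)) x

theorem shift_mem {x : Fin 5 → ℝ} (_ : x ∈ Sx) {a b c d : ℝ} (ha : 0 ≤ a) (hb : 0 ≤ b)
    (hc : 0 ≤ c) (hd : 0 ≤ d) (hs : a + b + c + d = 1) : (![a, b, c, d, 0] : Fin 5 → ℝ) ∈ Sx := by
  refine ⟨fun i => ?_, ?_⟩
  · fin_cases i <;> simp [ha, hb, hc, hd]
  · simp [hs]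

theorem hgN (t : Fin 2) (k : Fin 6) (t' : Fin 2) (k' : Fin 6) (v w : Fin 5) (x y : Fin 5 → ℝ)
    (hx : x ∈ Sx) (hy : y ∈ Sx) (hn : numK t k v = numK t' k' w) (h1 : x v = 0) (h2 : y w = 0)
    (h3 : (od5 v).map x = (od5 w).map y) : chN numR odR t k x = chN numR odR t' k' y :=
  cp_glue (i := Sum.inr (t, k)) (j := Sum.inr (t', k')) hx hy hn h1 h2 h3

theorem hgC (t : Fin 2) (k : Fin 3) (t' : Fin 2) (k' : Fin 3) (v w : Fin 5) (x y : Fin 5 → ℝ)
    (hx : x ∈ Sx) (hy : y ∈ Sx) (hn : numS t k v = numS t' k' w) (h1 : x v = 0) (h2 : y w = 0)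
    (h3 : (od5 v).map x = (od5 w).map y) : chC numR odR t k x = chC numR odR t' k' y :=
  cp_glue (i := Sum.inr (t, k)) (j := Sum.inr (t', k')) hx hy hn h1 h2 h3

theorem nI01 : ∀ t, ∀ x ∈ Sx, x 2 = 0 → chN numR odR t 0 x = chN numR odR t 1 x :=
  fun t x hx h => hgN t 0 t 1 2 2 x x hx hx (by fin_cases t <;> rfl) h h rfl

theorem nI12 : ∀ t, ∀ x ∈ Sx, x 3 = 0 → chN numR odR t 1 x = chN numR odR t 2 x :=
  fun t x hx h => hgN t 1 t 2 3 3 x x hx hx (by fin_cases t <;> rfl) h h rfl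

theorem nI13 : ∀ t, ∀ x ∈ Sx, x 1 = 0 → chN numR odR t 1 x = chN numR odR t 3 x :=
  fun t x hx h => hgN t 1 t 3 1 1 x x hx hx (by fin_cases t <;> rfl) h h rfl

theorem nI24 : ∀ t, ∀ x ∈ Sx, x 1 = 0 → chN numR odR t 2 x = chN numR odR t 4 x :=
  fun t x hx h => hgN t 2 t 4 1 1 x x hx hx (by fin_cases t <;> rfl) h h rfl

theorem nI34 : ∀ t, ∀ x ∈ Sx, x 3 = 0 → chN numR odR t 3 x = chN numR odR t 4 x :=
  fun t x hx h => hgN t 3 t 4 3 3 x x hx hx (by fin_cases t <;> rfl) h h rfl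

theorem nI45 : ∀ t, ∀ x ∈ Sx, x 2 = 0 → chN numR odR t 4 x = chN numR odR t 5 x :=
  fun t x hx h => hgN t 4 t 5 2 2 x x hx hx (by fin_cases t <;> rfl) h h rfl

theorem nS02 : ∀ t, ∀ x ∈ Sx, x 1 = 0 →
    chN numR odR t 0 x = chN numR odR t 2 ![x 0, x 2, x 3, x 4, 0] :=
  fun t x hx h => hgN t 0 t 2 1 4 x ![x 0, x 2, x 3, x 4, 0] hx
    (shift_mem hx (hx.1 _) (hx.1 _) (hx.1 _) (hx.1 _) (by linarith [hx.2]))
    (by fin_cases t <;> rfl) h rfl rfl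

theorem nS34 : ∀ t, ∀ x ∈ Sx, x 2 = 0 →
    chN numR odR t 3 x = chN numR odR t 4 ![x 0, x 1, x 3, x 4, 0] :=
  fun t x hx h => hgN t 3 t 4 2 4 x ![x 0, x 1, x 3, x 4, 0] hx
    (shift_mem hx (hx.1 _) (hx.1 _) (hx.1 _) (hx.1 _) (by linarith [hx.2]))
    (by fin_cases t <;> rfl) h rfl rfl

theorem nS55 : ∀ t, ∀ x ∈ Sx, x 3 = 0 →
    chN numR odR t 5 x = chN numR odR t 5 ![x 0, x 1, x 2, x 4, 0] :=
  fun t x hx h => hgN t 5 t 5 3 4 x ![x 0, x 1, x 2, x 4, 0] hx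
    (shift_mem hx (hx.1 _) (hx.1 _) (hx.1 _) (hx.1 _) (by linarith [hx.2]))
    (by fin_cases t <;> rfl) h rfl rfl

theorem nC30 : ∀ t, ∀ x ∈ Sx, x 0 = 0 →
    chN numR odR t 3 x = chN numR odR (1 - t) 0 ![x 1, x 2, x 3, x 4, 0] :=
  fun t x hx h => hgN t 3 (1 - t) 0 0 4 x ![x 1, x 2, x 3, x 4, 0] hx
    (shift_mem hx (hx.1 _) (hx.1 _) (hx.1 _) (hx.1 _) (by linarith [hx.2]))
    (by fin_cases t <;> rfl) h rfl rfl

theorem nC41 : ∀ t, ∀ x ∈ Sx, x 0 = 0 →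
    chN numR odR t 4 x = chN numR odR (1 - t) 1 ![x 1, x 2, x 3, x 4, 0] :=
  fun t x hx h => hgN t 4 (1 - t) 1 0 4 x ![x 1, x 2, x 3, x 4, 0] hx
    (shift_mem hx (hx.1 _) (hx.1 _) (hx.1 _) (hx.1 _) (by linarith [hx.2]))
    (by fin_cases t <;> rfl) h rfl rfl

theorem nC53 : ∀ t, ∀ x ∈ Sx, x 0 = 0 →
    chN numR odR t 5 x = chN numR odR (1 - t) 3 ![x 1, x 2, x 3, x 4, 0] :=
  fun t x hx h => hgN t 5 (1 - t) 3 0 4 x ![x 1, x 2, x 3, x 4, 0] hx
    (shift_mem hx (hx.1 _) (hx.1 _) (hx.1 _) (hx.1 _) (by linarith [hx.2]))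
    (by fin_cases t <;> rfl) h rfl rfl

theorem nM0 : ∀ t, ∀ x ∈ Sx, x 3 = 0 → chN numR odR t 0 x = chN numR odR (1 - t) 0 x :=
  fun t x hx h => hgN t 0 (1 - t) 0 3 3 x x hx hx (by fin_cases t <;> decide) h h rfl

theorem nM2 : ∀ t, ∀ x ∈ Sx, x 2 = 0 → chN numR odR t 2 x = chN numR odR (1 - t) 2 x :=
  fun t x hx h => hgN t 2 (1 - t) 2 2 2 x x hx hx (by fin_cases t <;> decide) h h rfl

theorem nM5 : ∀ t, ∀ x ∈ Sx, x 1 = 0 → chN numR odR t 5 x = chN numR odR (1 - t) 5 x :=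
  fun t x hx h => hgN t 5 (1 - t) 5 1 1 x x hx hx (by fin_cases t <;> decide) h h rfl

theorem cI01 : ∀ t, ∀ x ∈ Sx, x 2 = 0 → chC numR odR t 0 x = chC numR odR t 1 x :=
  fun t x hx h => hgC t 0 t 1 2 2 x x hx hx (by fin_cases t <;> rfl) h h rfl

theorem cI12 : ∀ t, ∀ x ∈ Sx, x 3 = 0 → chC numR odR t 1 x = chC numR odR t 2 x :=
  fun t x hx h => hgC t 1 t 2 3 3 x x hx hx (by fin_cases t <;> rfl) h h rfl

theorem cS02 : ∀ t, ∀ x ∈ Sx, x 1 = 0 →
    chC numR odR t 0 x = chC numR odR t 2 ![x 0, x 2, x 3, x 4, 0] :=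
  fun t x hx h => hgC t 0 t 2 1 4 x ![x 0, x 2, x 3, x 4, 0] hx
    (shift_mem hx (hx.1 _) (hx.1 _) (hx.1 _) (hx.1 _) (by linarith [hx.2]))
    (by fin_cases t <;> rfl) h rfl rfl

theorem cC10 : ∀ t, ∀ x ∈ Sx, x 1 = 0 →
    chC numR odR t 1 x = chC numR odR (1 - t) 0 ![x 0, x 2, x 3, x 4, 0] :=
  fun t x hx h => hgC t 1 (1 - t) 0 1 4 x ![x 0, x 2, x 3, x 4, 0] hx
    (shift_mem hx (hx.1 _) (hx.1 _) (hx.1 _) (hx.1 _) (by linarith [hx.2]))
    (by fin_cases t <;> rfl) h rfl rfl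

theorem cC21 : ∀ t, ∀ x ∈ Sx, x 1 = 0 →
    chC numR odR t 2 x = chC numR odR (1 - t) 1 ![x 0, x 2, x 3, x 4, 0] :=
  fun t x hx h => hgC t 2 (1 - t) 1 1 4 x ![x 0, x 2, x 3, x 4, 0] hx
    (shift_mem hx (hx.1 _) (hx.1 _) (hx.1 _) (hx.1 _) (by linarith [hx.2]))
    (by fin_cases t <;> rfl) h rfl rfl

theorem cM0 : ∀ t, ∀ x ∈ Sx, x 3 = 0 → chC numR odR t 0 x = chC numR odR (1 - t) 0 x :=
  fun t x hx h => hgC t 0 (1 - t) 0 3 3 x x hx hx (by fin_cases t <;> decide) h h rfl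

theorem cM2 : ∀ t, ∀ x ∈ Sx, x 2 = 0 → chC numR odR t 2 x = chC numR odR (1 - t) 2 x :=
  fun t x hx h => hgC t 2 (1 - t) 2 2 2 x x hx hx (by fin_cases t <;> decide) h h rfl

theorem chN_glue : KGlue (chN numR odR) :=
  ⟨nI01, nI12, nI13, nI24, nI34, nI45, nS02, nS34, nS55, nC30, nC41, nC53, nM0, nM2, nM5⟩

theorem chC_glue : SGlue (chC numR odR) := ⟨cI01, cI12, cS02, cC10, cC21, cM0, cM2⟩

/-! ### maps out of the two spaces -/

section lift

variable {Y : Type*}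

/-- compatibility of functions on the records of `R` and a family on `D² × T²` -/
structure LN (numR : R → Fin 5 → ℕ) (odR : R → Fin 5 → List (Fin 5))
    (FR : R → (Fin 5 → ℝ) → Y) (F : Fin 2 → Fin 6 → (Fin 5 → ℝ) → Y) : Prop where
  rr : ∀ r s v w, ∀ x ∈ Sx, ∀ y ∈ Sx, numR r v = numR s w → x v = 0 → y w = 0 →
    (odR r v).map x = (odR s w).map y → FR r x = FR s y
  rk : ∀ r v, numR r v < 6 → ∀ x ∈ Sx, x v = 0 → FR r x = HK F (numR r v) ((odR r v).map x)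
  kk : KGlue F

/-- compatibility of functions on the records of `R` and a family on the cone -/
structure LC (numR : R → Fin 5 → ℕ) (odR : R → Fin 5 → List (Fin 5))
    (FR : R → (Fin 5 → ℝ) → Y) (F : Fin 2 → Fin 3 → (Fin 5 → ℝ) → Y) : Prop where
  rr : ∀ r s v w, ∀ x ∈ Sx, ∀ y ∈ Sx, numR r v = numR s w → x v = 0 → y w = 0 →
    (odR r v).map x = (odR s w).map y → FR r x = FR s y
  rk : ∀ r v, numR r v < 6 → ∀ x ∈ Sx, x v = 0 → FR r x = HS F (numR r v) ((odR r v).map x)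
  kk : SGlue F

theorem numK_lt (t : Fin 2) (k : Fin 6) (v : Fin 5) : numK t k v < 100 := by
  fin_cases t <;> fin_cases k <;> fin_cases v <;> decide

theorem numS_lt (t : Fin 2) (k : Fin 3) (v : Fin 5) : numS t k v < 100 := by
  fin_cases t <;> fin_cases k <;> fin_cases v <;> decide

variable {FR : R → (Fin 5 → ℝ) → Y} {F : Fin 2 → Fin 6 → (Fin 5 → ℝ) → Y}
  {F' : Fin 2 → Fin 3 → (Fin 5 → ℝ) → Y}

/-- the map on the disjoint union -/
def zN (FR : R → (Fin 5 → ℝ) → Y) (F : Fin 2 → Fin 6 → (Fin 5 → ℝ) → Y)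
    (p : Fl49.Z (lab5 (ρ := R ⊕ (Fin 2 × Fin 6))) Set.univ) : Y :=
  Sum.elim (fun r => FR r p.2) (fun q => F q.1 q.2 p.2) (p.1 : R ⊕ (Fin 2 × Fin 6))

/-- the map on the disjoint union, cone -/
def zC (FR : R → (Fin 5 → ℝ) → Y) (F : Fin 2 → Fin 3 → (Fin 5 → ℝ) → Y)
    (p : Fl49.Z (lab5 (ρ := R ⊕ (Fin 2 × Fin 3))) Set.univ) : Y :=
  Sum.elim (fun r => FR r p.2) (fun q => F q.1 q.2 p.2) (p.1 : R ⊕ (Fin 2 × Fin 3))

theorem zN_compat (hR : ROk numR odR) (h : LN numR odR FR F)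
    (p q : Fl49.Z (lab5 (ρ := R ⊕ (Fin 2 × Fin 6))) Set.univ)
    (hpq : Fl49.Rg (lab5 (ρ := R ⊕ (Fin 2 × Fin 6))) (numN numR) (odN odR) Set.univ p q) :
    zN FR F p = zN FR F q := by
  obtain ⟨⟨i, hi⟩, ⟨x, hx⟩⟩ := p
  obtain ⟨⟨j, hj⟩, ⟨y, hy⟩⟩ := q
  obtain ⟨v, _, w, _, hn, hxv, hyw, ho⟩ := hpq
  have hx' := mem_Dl.1 hx
  have hy' := mem_Dl.1 hy
  rcases i with r | ⟨t, k⟩ <;> rcases j with s | ⟨t', k'⟩
  · exact h.rr r s v w x hx' y hy' hn hxv hyw ho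
  · have hn' : numR r v = numK t' k' w := hn
    have ho' : (odR r v).map x = (od5 w).map y := ho
    have hl : numR r v < 6 := (hR.num r v).resolve_right (by
      have := numK_lt t' k' w
      omega)
    change FR r x = F t' k' y
    rw [h.rk r v hl x hx' hxv, HK_spec h.kk t' k' w hy' hyw, hn', ho']
  · have hn' : numK t k v = numR s w := hn
    have ho' : (od5 v).map x = (odR s w).map y := ho
    have hl : numR s w < 6 := (hR.num s w).resolve_right (by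
      have := numK_lt t k v
      omega)
    change F t k x = FR s y
    rw [h.rk s w hl y hy' hyw, HK_spec h.kk t k v hx' hxv, hn', ho']
  · change F t k x = F t' k' y
    have hn' : numK t k v = numK t' k' w := hn
    have ho' : (od5 v).map x = (od5 w).map y := ho
    rw [HK_spec h.kk t k v hx' hxv, HK_spec h.kk t' k' w hy' hyw, hn', ho']

theorem zC_compat (hR : ROk numR odR) (h : LC numR odR FR F')
    (p q : Fl49.Z (lab5 (ρ := R ⊕ (Fin 2 × Fin 3))) Set.univ)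
    (hpq : Fl49.Rg (lab5 (ρ := R ⊕ (Fin 2 × Fin 3))) (numC numR) (odC odR) Set.univ p q) :
    zC FR F' p = zC FR F' q := by
  obtain ⟨⟨i, hi⟩, ⟨x, hx⟩⟩ := p
  obtain ⟨⟨j, hj⟩, ⟨y, hy⟩⟩ := q
  obtain ⟨v, _, w, _, hn, hxv, hyw, ho⟩ := hpq
  have hx' := mem_Dl.1 hx
  have hy' := mem_Dl.1 hy
  rcases i with r | ⟨t, k⟩ <;> rcases j with s | ⟨t', k'⟩
  · exact h.rr r s v w x hx' y hy' hn hxv hyw ho
  · have hn' : numR r v = numS t' k' w := hn
    have ho' : (odR r v).map x = (od5 w).map y := ho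
    have hl : numR r v < 6 := (hR.num r v).resolve_right (by
      have := numS_lt t' k' w
      omega)
    change FR r x = F' t' k' y
    rw [h.rk r v hl x hx' hxv, HS_spec h.kk t' k' w hy' hyw, hn', ho']
  · have hn' : numS t k v = numR s w := hn
    have ho' : (od5 v).map x = (odR s w).map y := ho
    have hl : numR s w < 6 := (hR.num s w).resolve_right (by
      have := numS_lt t k v
      omega)
    change F' t k x = FR s y
    rw [h.rk s w hl y hy' hyw, HS_spec h.kk t k v hx' hxv, hn', ho']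
  · change F' t k x = F' t' k' y
    have hn' : numS t k v = numS t' k' w := hn
    have ho' : (od5 v).map x = (od5 w).map y := ho
    rw [HS_spec h.kk t k v hx' hxv, HS_spec h.kk t' k' w hy' hyw, hn', ho']

/-- the induced map out of the space with `D² × T²` -/
def liftN (hR : ROk numR odR) (h : LN numR odR FR F) : XN numR odR → Y :=
  Quot.lift (zN FR F) (zN_compat hR h)

/-- the induced map out of the space with the cone -/
def liftC (hR : ROk numR odR) (h : LC numR odR FR F') : XC numR odR → Y :=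
  Quot.lift (zC FR F') (zC_compat hR h)

theorem liftN_inl (hR : ROk numR odR) (h : LN numR odR FR F) (r : R) {x : Fin 5 → ℝ}
    (hx : x ∈ Sx) : liftN hR h (cp _ _ (Sum.inl r) x) = FR r x := by
  rw [cp_of _ hx]; rfl

theorem liftN_inr (hR : ROk numR odR) (h : LN numR odR FR F) (t : Fin 2) (k : Fin 6)
    {x : Fin 5 → ℝ} (hx : x ∈ Sx) : liftN hR h (chN numR odR t k x) = F t k x := by
  unfold chN
  rw [cp_of _ hx]; rfl

theorem liftC_inl (hR : ROk numR odR) (h : LC numR odR FR F') (r : R) {x : Fin 5 → ℝ}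
    (hx : x ∈ Sx) : liftC hR h (cp _ _ (Sum.inl r) x) = FR r x := by
  rw [cp_of _ hx]; rfl

theorem liftC_inr (hR : ROk numR odR) (h : LC numR odR FR F') (t : Fin 2) (k : Fin 3)
    {x : Fin 5 → ℝ} (hx : x ∈ Sx) : liftC hR h (chC numR odR t k x) = F' t k x := by
  unfold chC
  rw [cp_of _ hx]; rfl

end lift

end B3
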