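import Pool.Agent.Lib_MP_55d5ef_b3.Phi

/-!
# `MP_55d5ef_gt`, level B, step B3: the dyadic reparametrisation

`hd f : [0,1] → [f,1]`, piecewise linear in `(f, g)`, locally finitely many pieces on `f < 1`.
-/

open Topology

namespace B3

/-- the powers of `1/2` -/
noncomputable def an (n : ℕ) : ℝ := (1 / 2) ^ n

theorem an_pos (n : ℕ) : 0 < an n := by unfold an; positivity

theorem an_zero : an 0 = 1 := pow_zero _

theorem an_succ (n : ℕ) : an (n + 1) = an n / 2 := by
  unfold an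
  rw [pow_succ]
  ring

theorem an_small {e : ℝ} (he : 0 < e) : ∃ n, an n < e :=
  exists_pow_lt_of_lt_one he (by norm_num)

theorem an_lev {f : ℝ} (hf : f < 1) : ∃ n, f ≤ 1 - an n / 2 := by
  obtain ⟨n, hn⟩ := an_small (sub_pos.2 hf)
  exact ⟨n, by have := an_pos n; linarith⟩

open Classical in
/-- the band of `f` -/
noncomputable def lev (f : ℝ) : ℕ :=
  if h : ∃ n, f ≤ 1 - an n / 2 then Nat.find h else 0

theorem lev_le {f : ℝ} (hf : f < 1) : f ≤ 1 - an (lev f) / 2 := by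
  classical
  unfold lev
  rw [dif_pos (an_lev hf)]
  exact Nat.find_spec (an_lev hf)

theorem lev_lt {f : ℝ} (hf : f < 1) {n : ℕ} (hn : n < lev f) : 1 - an n / 2 < f := by
  classical
  unfold lev at hn
  rw [dif_pos (an_lev hf)] at hn
  exact not_le.1 (Nat.find_min (an_lev hf) hn)

theorem lev_ge {f : ℝ} (h0 : 0 ≤ f) (hf : f < 1) : 1 - an (lev f) ≤ f := by
  rcases Nat.eq_zero_or_pos (lev f) with h | h
  · rw [h, an_zero]; linarith
  · have h1 := lev_lt hf (n := lev f - 1) (by omega)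
    have h2 := an_succ (lev f - 1)
    rw [Nat.sub_add_cancel h] at h2
    rw [h2]
    exact h1.le

/-- one piece of the reparametrisation -/
noncomputable def hn (a f g : ℝ) : ℝ := max (f + a / 2 * g) (1 - a + a * g)
/-- one piece of the inverse -/
noncomputable def kn (a f y : ℝ) : ℝ := min (2 / a * (y - f)) (1 - (1 - y) / a)

/-- the dyadic reparametrisation -/
noncomputable def hd (f g : ℝ) : ℝ := hn (an (lev f)) f g
/-- its inverse -/
noncomputable def kd (f y : ℝ) : ℝ := kn (an (lev f)) f y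

theorem an_anti {m n : ℕ} (h : m ≤ n) : an n ≤ an m := by
  unfold an
  exact pow_le_pow_of_le_one (by norm_num) (by norm_num) h

/-- the level is determined up to the common boundary of two bands -/
theorem lev_cases {f : ℝ} (hf : f < 1) {n : ℕ} (h1 : 1 - an n ≤ f) (h2 : f ≤ 1 - an n / 2) :
    an (lev f) = an n ∨ (f = 1 - an n ∧ an (lev f) = 2 * an n) := by
  have h3 : lev f ≤ n := by
    by_contra hc
    have := lev_lt hf (not_le.1 hc)
    linarith
  rcases Nat.lt_or_ge (lev f) n with h4 | h4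
  · right
    have h5 : an n ≤ an (lev f + 1) := an_anti h4
    rw [an_succ] at h5
    have h6 := lev_le hf
    have h7 : f = 1 - an n := by linarith
    refine ⟨h7, ?_⟩
    linarith
  · left
    rw [le_antisymm h3 h4]

theorem hd_eq {f g : ℝ} (hf : f < 1) (g0 : 0 ≤ g) (g1 : g ≤ 1) {n : ℕ} (h1 : 1 - an n ≤ f)
    (h2 : f ≤ 1 - an n / 2) : hd f g = hn (an n) f g := by
  unfold hd
  rcases lev_cases hf h1 h2 with h | ⟨h3, h⟩
  · rw [h]
  · have hp := an_pos n
    rw [h, h3]
    unfold hn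
    rw [max_eq_left (by nlinarith), max_eq_right (by nlinarith)]
    ring

theorem kd_eq {f y : ℝ} (hf : f < 1) (y0 : f ≤ y) (y1 : y ≤ 1) {n : ℕ} (h1 : 1 - an n ≤ f)
    (h2 : f ≤ 1 - an n / 2) : kd f y = kn (an n) f y := by
  unfold kd
  rcases lev_cases hf h1 h2 with h | ⟨h3, h⟩
  · rw [h]
  · have hp := an_pos n
    rw [h, h3]
    rw [h3] at y0
    unfold kn
    have e1 : 2 / (2 * an n) * (y - (1 - an n)) = 1 - (1 - y) / an n := by
      field_simp
      ring
    have h4 : 0 ≤ (y - (1 - an n)) / an n := by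
      apply div_nonneg _ hp.le
      linarith
    have h5 : 0 ≤ (1 - y) / an n := div_nonneg (by linarith) hp.le
    have e2 : 1 - (1 - y) / (2 * an n) = 1 - (1 - y) / an n + (1 - y) / an n / 2 := by
      field_simp
      ring
    have e3 : 2 / an n * (y - (1 - an n)) = 1 - (1 - y) / an n + (y - (1 - an n)) / an n := by
      field_simp
      ring
    rw [e1, min_eq_left (by rw [e2]; linarith), min_eq_right (by rw [e3]; linarith)]

theorem hn_mono {a f g g' : ℝ} (ha : 0 < a) (h : g ≤ g') : hn a f g ≤ hn a f g' := by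
  unfold hn
  apply max_le_max <;> nlinarith

theorem kn_mono {a f g g' : ℝ} (ha : 0 < a) (h : g ≤ g') : kn a f g ≤ kn a f g' := by
  unfold kn
  apply min_le_min
  · exact mul_le_mul_of_nonneg_left (by linarith) (by positivity)
  · have : (1 - g') / a ≤ (1 - g) / a := div_le_div_of_nonneg_right (by linarith) ha.le
    linarith

theorem hn_kn {a f y : ℝ} (ha : 0 < a) : hn a f (kn a f y) = y := by
  unfold hn kn
  rcases le_total (2 / a * (y - f)) (1 - (1 - y) / a) with h | h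
  · rw [min_eq_left h]
    have e1 : a / 2 * (2 / a * (y - f)) = y - f := by field_simp
    have h2 := mul_le_mul_of_nonneg_left h ha.le
    have e2 : a * (1 - (1 - y) / a) = a - (1 - y) := by field_simp
    rw [e2] at h2
    rw [e1, max_eq_left (by linarith)]
    ring
  · rw [min_eq_right h]
    have e1 : a / 2 * (2 / a * (y - f)) = y - f := by field_simp
    have e2 : a * (1 - (1 - y) / a) = a - (1 - y) := by field_simp
    have h2 := mul_le_mul_of_nonneg_left h (by positivity : 0 ≤ a / 2)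
    rw [e1] at h2
    rw [max_eq_right (by linarith), e2]
    ring

theorem kn_hn {a f g : ℝ} (ha : 0 < a) : kn a f (hn a f g) = g := by
  unfold hn kn
  rcases le_total (f + a / 2 * g) (1 - a + a * g) with h | h
  · rw [max_eq_right h]
    have e1 : 1 - (1 - (1 - a + a * g)) / a = g := by field_simp; ring
    rw [e1]
    apply min_eq_right
    rw [div_mul_eq_mul_div, le_div_iff₀ ha]
    linarith
  · rw [max_eq_left h]
    have e1 : 2 / a * (f + a / 2 * g - f) = g := by field_simp; ring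
    rw [e1]
    apply min_eq_left
    have h2 : (1 - (f + a / 2 * g)) / a ≤ (1 - (1 - a + a * g)) / a :=
      div_le_div_of_nonneg_right (by linarith) ha.le
    have e2 : (1 - (1 - a + a * g)) / a = 1 - g := by field_simp; ring
    rw [e2] at h2
    linarith

/-- continuity on the bands `f ≤ 1 - 2^{-(n+1)}` -/
theorem contOn_band {F : ℝ × ℝ → ℝ} {C : Set (ℝ × ℝ)} (hC : IsClosed C)
    (h0 : ∀ p ∈ C, 0 ≤ p.1)
    (h : ∀ n, ContinuousOn F (C ∩ {p | 1 - an n ≤ p.1 ∧ p.1 ≤ 1 - an n / 2})) (n : ℕ) :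
    ContinuousOn F (C ∩ {p | p.1 ≤ 1 - an n / 2}) := by
  induction n with
  | zero =>
    refine (h 0).mono ?_
    rintro p ⟨hp, hp1⟩
    refine ⟨hp, ?_, hp1⟩
    rw [an_zero]
    have := h0 p hp
    linarith
  | succ n ih =>
    have e : C ∩ {p | p.1 ≤ 1 - an (n + 1) / 2} ⊆ (C ∩ {p | p.1 ≤ 1 - an n / 2}) ∪
        (C ∩ {p | 1 - an (n + 1) ≤ p.1 ∧ p.1 ≤ 1 - an (n + 1) / 2}) := by
      rintro p ⟨hp, hp1⟩
      rcases le_total p.1 (1 - an n / 2) with h1 | h1
      · exact Or.inl ⟨hp, h1⟩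
      · refine Or.inr ⟨hp, ?_, hp1⟩
        rw [an_succ]
        exact h1
    refine (ContinuousOn.union_of_isClosed ih (h (n + 1)) ?_ ?_).mono e
    · exact hC.inter (isClosed_le (by fun_prop) (by fun_prop))
    · exact hC.inter ((isClosed_le (by fun_prop) (by fun_prop)).and
        (isClosed_le (by fun_prop) (by fun_prop)))

theorem contOn_bands {F : ℝ × ℝ → ℝ} {C : Set (ℝ × ℝ)} (hC : IsClosed C)
    (h0 : ∀ p ∈ C, 0 ≤ p.1)
    (h : ∀ n, ContinuousOn F (C ∩ {p | 1 - an n ≤ p.1 ∧ p.1 ≤ 1 - an n / 2})) :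
    ContinuousOn F (C ∩ {p | p.1 < 1}) := by
  rintro p ⟨hp, hp1⟩
  obtain ⟨n, hn⟩ := an_small (sub_pos.2 hp1)
  have hpos := an_pos n
  have h1 := contOn_band hC h0 h n p ⟨hp, by change p.1 ≤ 1 - an n / 2; linarith⟩
  refine h1.mono_of_mem_nhdsWithin ?_
  have h2 : {q : ℝ × ℝ | q.1 < 1 - an n / 2} ∈ 𝓝 p :=
    (isOpen_lt continuous_fst continuous_const).mem_nhds (by
      change p.1 < 1 - an n / 2
      linarith)
  have h3 := inter_mem_nhdsWithin (C ∩ {p | p.1 < 1}) h2
  refine Filter.mem_of_superset h3 ?_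
  rintro q ⟨⟨hq, _⟩, hq2⟩
  have h5 : q.1 < 1 - an n / 2 := hq2
  exact ⟨hq, h5.le⟩

/-- **The dyadic reparametrisation.** -/
theorem radD : Rad hd kd := by
  refine ⟨?_, ?_, ?_, ?_, ?_, ?_, ?_, ?_, ?_⟩
  · intro g g0 g1
    rw [hd_eq zero_lt_one g0 g1 (n := 0) (by rw [an_zero]; norm_num) (by rw [an_zero]; norm_num),
      an_zero]
    unfold hn
    rw [max_eq_right (by linarith)]
    ring
  · intro f f0 f1
    unfold hd hn
    have := lev_ge f0 f1
    rw [max_eq_left (by linarith)]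
    ring
  · intro f f0 f1
    unfold hd hn
    have := lev_le f1
    rw [max_eq_right (by linarith)]
    ring
  · intro f g g' f0 f1 g0 gg g1
    exact hn_mono (an_pos _) gg
  · intro f g f0 f1 g0 g1
    exact hn_kn (an_pos _)
  · intro f g f0 f1 g0 g1
    exact kn_hn (an_pos _)
  · intro f g g' f0 f1 g0 gg g1
    exact kn_mono (an_pos _) gg
  · have hC : IsClosed {p : ℝ × ℝ | 0 ≤ p.1 ∧ 0 ≤ p.2 ∧ p.2 ≤ 1 ∧ p.1 ≤ 1} :=
      (isClosed_le (by fun_prop) (by fun_prop)).and
        ((isClosed_le (by fun_prop) (by fun_prop)).and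
        ((isClosed_le (by fun_prop) (by fun_prop)).and
        (isClosed_le (by fun_prop) (by fun_prop))))
    refine (contOn_bands (F := fun p => hd p.1 p.2) hC (fun p hp => hp.1) fun n => ?_).mono ?_
    · have h1 : ContinuousOn (fun p : ℝ × ℝ => hn (an n) p.1 p.2)
          ({p : ℝ × ℝ | 0 ≤ p.1 ∧ 0 ≤ p.2 ∧ p.2 ≤ 1 ∧ p.1 ≤ 1} ∩
            {p | 1 - an n ≤ p.1 ∧ p.1 ≤ 1 - an n / 2}) := by
        unfold hn
        fun_prop
      refine h1.congr ?_
      rintro p ⟨⟨h2, h3, h4, h5⟩, h6, h7⟩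
      exact hd_eq (by have := an_pos n; linarith) h3 h4 h6 h7
    · rintro p ⟨h1, h2, h3, h4⟩
      exact ⟨⟨h1, h3, h4, h2.le⟩, h2⟩
  · have hC : IsClosed {p : ℝ × ℝ | 0 ≤ p.1 ∧ p.1 ≤ p.2 ∧ p.2 ≤ 1 ∧ p.1 ≤ 1} :=
      (isClosed_le (by fun_prop) (by fun_prop)).and
        ((isClosed_le (by fun_prop) (by fun_prop)).and
        ((isClosed_le (by fun_prop) (by fun_prop)).and
        (isClosed_le (by fun_prop) (by fun_prop))))
    refine (contOn_bands (F := fun p => kd p.1 p.2) hC (fun p hp => hp.1) fun n => ?_).mono ?_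
    · have h1 : ContinuousOn (fun p : ℝ × ℝ => kn (an n) p.1 p.2)
          ({p : ℝ × ℝ | 0 ≤ p.1 ∧ p.1 ≤ p.2 ∧ p.2 ≤ 1 ∧ p.1 ≤ 1} ∩
            {p | 1 - an n ≤ p.1 ∧ p.1 ≤ 1 - an n / 2}) := by
        unfold kn
        fun_prop
      refine h1.congr ?_
      rintro p ⟨⟨h2, h3, h4, h5⟩, h6, h7⟩
      exact kd_eq (by have := an_pos n; linarith) h3 h4 h6 h7
    · rintro p ⟨h1, h2, h3, h4⟩
      exact ⟨⟨h1, h3, h4, h2.le⟩, h2⟩

end B3
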