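import Pool.Agent.Lib_MP_55d5ef_b3.Phi

/-!
# `MP_55d5ef_gt`, level B, step B3: the homeomorphism
-/

open Fl49 Topology

namespace B3

variable {R : Type} {numR : R → Fin 5 → ℕ} {odR : R → Fin 5 → List (Fin 5)}
variable {h k : ℝ → ℝ → ℝ}

theorem psi_phi (hR : ROk numR odR) (hr : Rad h k) (p : XN numR odR) (hp : mN hR p ≠ 1) :
    psi hR hr (phi hR hr p) = p := by
  obtain ⟨i, x, hx, rfl⟩ := cp_surj p
  rcases i with r | ⟨t, j⟩
  · unfold phi psi
    rw [liftN_inl hR _ r hx, liftC_inl hR _ r hx]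
  · have ho := prm_ok j hx
    change mN hR (chN numR odR t j x) ≠ 1 at hp
    rw [mN_inr hR t j hx] at hp
    have hf : (prm j x).1 < 1 := lt_of_le_of_ne (ho.a1.trans ho.a2) hp
    change psi hR hr (phi hR hr (chN numR odR t j x)) = chN numR odR t j x
    unfold phi psi
    rw [liftN_inr hR _ t j hx, ev6_prm]
    unfold gphi
    rw [if_pos hf, liftC_PC hR _ t (hr.okC ho hf)]
    unfold gpsi
    rw [if_pos hf, hr.kh _ _ ho.a0 hf ho.b0 (ho.b1.trans ho.b2),
      hr.kh _ _ ho.a0 hf (ho.b0.trans ho.b1) ho.b2, ← ev6_prm (PN (chN numR odR) t),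
      ev6_PN chN_glue t j hx]

theorem phi_psi (hR : ROk numR odR) (hr : Rad h k) (q : XC numR odR) (hq : mC hR q ≠ 1) :
    phi hR hr (psi hR hr q) = q := by
  obtain ⟨i, x, hx, rfl⟩ := cp_surj q
  rcases i with r | ⟨t, j⟩
  · unfold phi psi
    rw [liftC_inl hR _ r hx, liftN_inl hR _ r hx]
  · have ho := prmC_ok j hx
    change mC hR (chC numR odR t j x) ≠ 1 at hq
    rw [mC_inr hR t j hx] at hq
    have hf : (prmC j x).1 < 1 := lt_of_le_of_ne (ho.a1.trans ho.a2) hq
    change phi hR hr (psi hR hr (chC numR odR t j x)) = chC numR odR t j x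
    unfold phi psi
    rw [liftC_inr hR _ t j hx, ev3_prm]
    unfold gpsi
    rw [if_pos hf, liftN_PN hR _ t (hr.ok ho hf)]
    unfold gphi
    rw [if_pos hf, hr.hk _ _ ho.a0 hf ho.b0 (ho.b1.trans ho.b2),
      hr.hk _ _ ho.a0 hf (ho.b0.trans ho.b1) ho.b2, ← ev3_prm (PC (chC numR odR) t),
      ev3_PC chC_glue t j hx]

theorem mC_phi (hR : ROk numR odR) (hr : Rad h k) (p : XN numR odR) :
    mC hR (phi hR hr p) = mN hR p := by
  obtain ⟨i, x, hx, rfl⟩ := cp_surj p
  rcases i with r | ⟨t, j⟩
  · unfold phi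
    rw [liftN_inl hR _ r hx, mC_inl hR r hx, mN_inl hR r hx]
  · have ho := prm_ok j hx
    change mC hR (phi hR hr (chN numR odR t j x)) = mN hR (chN numR odR t j x)
    unfold phi
    rw [mN_inr hR t j hx, liftN_inr hR _ t j hx, ev6_prm]
    unfold gphi
    split_ifs with hf
    · unfold mC
      have hl : LC numR odR (fun _ _ => (0 : ℝ))
          (fun t j x => ev3 ((fun _ f0 _ _ _ => f0 : Fin 2 → ℝ → ℝ → ℝ → ℝ → ℝ) t) j x) :=
        LC_m numR odR hR
      exact liftC_PC hR hl t (hr.okC ho hf)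
    · rw [(mC_eq_one hR _).2 rfl]
      exact (le_antisymm (ho.a1.trans ho.a2) (not_lt.mp hf)).symm

theorem mN_psi (hR : ROk numR odR) (hr : Rad h k) (q : XC numR odR) (hq : mC hR q ≠ 1) :
    mN hR (psi hR hr q) = mC hR q := by
  rw [← mC_phi hR hr, phi_psi hR hr q hq]

/-! ### continuity -/

section

variable {Y : Type*} [TopologicalSpace Y] {ρ : Type} {num : ρ → Fin 5 → ℕ}
  {od : ρ → Fin 5 → List (Fin 5)}

theorem contOn_of_records {U : Set (Fl49.X (lab5 (ρ := ρ)) num od Set.univ)} (hU : IsOpen U)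
    {f : Fl49.X (lab5 (ρ := ρ)) num od Set.univ → Y}
    (hf : ∀ i, ∀ x ∈ Sx, cp num od i x ∈ U →
      ContinuousWithinAt (fun y => f (cp num od i y)) Sx x) : ContinuousOn f U := by
  let π : Z (lab5 (ρ := ρ)) Set.univ → Fl49.X (lab5 (ρ := ρ)) num od Set.univ := Quot.mk _
  have hq : IsQuotientMap π := isQuotientMap_quot_mk
  refine (hq.continuousOn_isOpen_iff hU).2 ?_
  rintro ⟨⟨i, hi⟩, ⟨x, hx⟩⟩ hp
  apply ContinuousAt.continuousWithinAt
  have hx' := mem_Dl.1 hx
  have e : cp num od i x = Quot.mk (Rg (lab5 (ρ := ρ)) num od Set.univ)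
      ⟨⟨i, hi⟩, ⟨x, hx⟩⟩ := cp_of i hx'
  have h1 := hf i x hx' (by rw [e]; exact hp)
  rw [← (IsOpenEmbedding.sigmaMk (σ := fun i : (Set.univ : Set ρ) =>
    Dl (lab5 (ρ := ρ) i)) (i := ⟨i, hi⟩)).continuousAt_iff]
  have h2 : ContinuousAt (fun y : Dl (Finset.univ : Finset (Fin 5)) => f (cp num od i y.1))
      ⟨x, hx⟩ := by
    have h3 : Filter.Tendsto (fun y : Dl (Finset.univ : Finset (Fin 5)) => y.1) (𝓝 ⟨x, hx⟩)
        (𝓝[Sx] x) := by
      rw [tendsto_nhdsWithin_iff]
      exact ⟨continuous_subtype_val.continuousAt, Filter.Eventually.of_forall fun y =>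
        mem_Dl.1 y.2⟩
    exact h1.tendsto.comp h3
  refine h2.congr (Filter.Eventually.of_forall fun y => ?_)
  change f (cp num od i y.1) = f _
  rw [cp_of i (mem_Dl.1 y.2)]
  rfl

theorem cont_of_records {f : Fl49.X (lab5 (ρ := ρ)) num od Set.univ → Y}
    (hf : ∀ i, ContinuousOn (fun y => f (cp num od i y)) Sx) : Continuous f :=
  continuousOn_univ.1 (contOn_of_records isOpen_univ fun i x hx _ => hf i x hx)

end

theorem mN_cont (hR : ROk numR odR) : Continuous (mN hR) := by
  refine cont_of_records fun i => ?_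
  rcases i with r | ⟨t, j⟩
  · exact continuousOn_const.congr fun x hx => mN_inl hR r hx
  · exact (continuous_fst.comp (prm_cont j)).continuousOn.congr fun x hx => mN_inr hR t j hx

theorem mC_cont (hR : ROk numR odR) : Continuous (mC hR) := by
  refine cont_of_records fun i => ?_
  rcases i with r | ⟨t, j⟩
  · exact continuousOn_const.congr fun x hx => mC_inl hR r hx
  · exact (continuous_fst.comp (prmC_cont j)).continuousOn.congr fun x hx => mC_inr hR t j hx

theorem isClosed_core (hR : ROk numR odR) : IsClosed (core hR) :=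
  isClosed_singleton.preimage (mN_cont hR)

theorem phi_contOn (hR : ROk numR odR) (hr : Rad h k) :
    ContinuousOn (phi hR hr) {p | mN hR p ≠ 1} := by
  refine contOn_of_records (isOpen_ne.preimage (mN_cont hR)) ?_
  intro i x hx hp
  rcases i with r | ⟨t, j⟩
  · have h1 : ContinuousOn (fun y => phi hR hr (cp (numN numR) (odN odR) (Sum.inl r) y)) Sx :=
      (cp_cont (num := numC numR) (od := odC odR) (Sum.inl r)).congr fun y hy =>
        liftN_inl hR _ r hy
    exact h1 x hx
  · have ho := prm_ok j hx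
    change mN hR (chN numR odR t j x) ≠ 1 at hp
    rw [mN_inr hR t j hx] at hp
    have hf : (prm j x).1 < 1 := lt_of_le_of_ne (ho.a1.trans ho.a2) hp
    have hS : Sx ∩ {y | (prm j y).1 < 1} ∈ 𝓝[Sx] x :=
      inter_mem_nhdsWithin _ ((isOpen_lt (continuous_fst.comp (prm_cont j))
        continuous_const).mem_nhds hf)
    have h1 : ContinuousOn (fun y => PC (chC numR odR) t (prm j y).1 (prm j y).2.1
        (h (prm j y).1 (prm j y).2.2.1) (h (prm j y).1 (prm j y).2.2.2))
        (Sx ∩ {y | (prm j y).1 < 1}) := by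
      have h2 := PC_cont (chC_glue (numR := numR) (odR := odR))
        (fun t k => cp_cont (Sum.inr (t, k))) t
      have c0 := (prm_cont j).continuousOn (s := Sx ∩ {y | (prm j y).1 < 1})
      have hm1 : ContinuousOn (fun y => h (prm j y).1 (prm j y).2.2.1)
          (Sx ∩ {y | (prm j y).1 < 1}) := by
        refine hr.hc.comp (f := fun y => ((prm j y).1, (prm j y).2.2.1))
          (c0.fst.prodMk c0.snd.snd.fst) ?_
        rintro y ⟨hy, hy1⟩
        have := prm_ok j hy
        exact ⟨this.a0, hy1, this.b0, this.b1.trans this.b2⟩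
      have hm2 : ContinuousOn (fun y => h (prm j y).1 (prm j y).2.2.2)
          (Sx ∩ {y | (prm j y).1 < 1}) := by
        refine hr.hc.comp (f := fun y => ((prm j y).1, (prm j y).2.2.2))
          (c0.fst.prodMk c0.snd.snd.snd) ?_
        rintro y ⟨hy, hy1⟩
        have := prm_ok j hy
        exact ⟨this.a0, hy1, this.b0.trans this.b1, this.b2⟩
      refine h2.comp (f := fun y => ((prm j y).1, (prm j y).2.1,
        h (prm j y).1 (prm j y).2.2.1, h (prm j y).1 (prm j y).2.2.2))
        (c0.fst.prodMk (c0.snd.fst.prodMk (hm1.prodMk hm2))) ?_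
      rintro y ⟨hy, hy1⟩
      exact hr.okC (prm_ok j hy) hy1
    have h3 := (h1 x ⟨hx, hf⟩).mono_of_mem_nhdsWithin hS
    refine h3.congr_of_eventuallyEq ?_ ?_
    · filter_upwards [hS] with y hy
      change phi hR hr (chN numR odR t j y) = _
      unfold phi
      rw [liftN_inr hR _ t j hy.1, ev6_prm]
      unfold gphi
      exact if_pos hy.2
    · change phi hR hr (chN numR odR t j x) = _
      unfold phi
      rw [liftN_inr hR _ t j hx, ev6_prm]
      unfold gphi
      exact if_pos hf

theorem psi_contOn (hR : ROk numR odR) (hr : Rad h k) :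
    ContinuousOn (psi hR hr) {p | mC hR p ≠ 1} := by
  refine contOn_of_records (isOpen_ne.preimage (mC_cont hR)) ?_
  intro i x hx hp
  rcases i with r | ⟨t, j⟩
  · have h1 : ContinuousOn (fun y => psi hR hr (cp (numC numR) (odC odR) (Sum.inl r) y)) Sx :=
      (cp_cont (num := numN numR) (od := odN odR) (Sum.inl r)).congr fun y hy =>
        liftC_inl hR _ r hy
    exact h1 x hx
  · have ho := prmC_ok j hx
    change mC hR (chC numR odR t j x) ≠ 1 at hp
    rw [mC_inr hR t j hx] at hp
    have hf : (prmC j x).1 < 1 := lt_of_le_of_ne (ho.a1.trans ho.a2) hp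
    have hS : Sx ∩ {y | (prmC j y).1 < 1} ∈ 𝓝[Sx] x :=
      inter_mem_nhdsWithin _ ((isOpen_lt (continuous_fst.comp (prmC_cont j))
        continuous_const).mem_nhds hf)
    have h1 : ContinuousOn (fun y => PN (chN numR odR) t (prmC j y).1 (prmC j y).2.1
        (k (prmC j y).1 (prmC j y).2.2.1) (k (prmC j y).1 (prmC j y).2.2.2))
        (Sx ∩ {y | (prmC j y).1 < 1}) := by
      have h2 := PN_cont (chN_glue (numR := numR) (odR := odR))
        (fun t k => cp_cont (Sum.inr (t, k))) t
      have c0 := (prmC_cont j).continuousOn (s := Sx ∩ {y | (prmC j y).1 < 1})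
      have hm1 : ContinuousOn (fun y => k (prmC j y).1 (prmC j y).2.2.1)
          (Sx ∩ {y | (prmC j y).1 < 1}) := by
        refine hr.kc.comp (f := fun y => ((prmC j y).1, (prmC j y).2.2.1))
          (c0.fst.prodMk c0.snd.snd.fst) ?_
        rintro y ⟨hy, hy1⟩
        have := prmC_ok j hy
        exact ⟨this.a0, hy1, this.b0, this.b1.trans this.b2⟩
      have hm2 : ContinuousOn (fun y => k (prmC j y).1 (prmC j y).2.2.2)
          (Sx ∩ {y | (prmC j y).1 < 1}) := by
        refine hr.kc.comp (f := fun y => ((prmC j y).1, (prmC j y).2.2.2))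
          (c0.fst.prodMk c0.snd.snd.snd) ?_
        rintro y ⟨hy, hy1⟩
        have := prmC_ok j hy
        exact ⟨this.a0, hy1, this.b0.trans this.b1, this.b2⟩
      refine h2.comp (f := fun y => ((prmC j y).1, (prmC j y).2.1,
        k (prmC j y).1 (prmC j y).2.2.1, k (prmC j y).1 (prmC j y).2.2.2))
        (c0.fst.prodMk (c0.snd.fst.prodMk (hm1.prodMk hm2))) ?_
      rintro y ⟨hy, hy1⟩
      exact hr.ok (prmC_ok j hy) hy1
    have h3 := (h1 x ⟨hx, hf⟩).mono_of_mem_nhdsWithin hS
    refine h3.congr_of_eventuallyEq ?_ ?_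
    · filter_upwards [hS] with y hy
      change psi hR hr (chC numR odR t j y) = _
      unfold psi
      rw [liftC_inr hR _ t j hy.1, ev3_prm]
      unfold gpsi
      exact if_pos hy.2
    · change psi hR hr (chC numR odR t j x) = _
      unfold psi
      rw [liftC_inr hR _ t j hx, ev3_prm]
      unfold gpsi
      exact if_pos hf

/-- **Step B3.**  The complement of the core torus is homeomorphic to the complement of the cone
point. -/
noncomputable def homB3 (hR : ROk numR odR) (hr : Rad h k) :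
    {p : XN numR odR // p ∉ core hR} ≃ₜ {q : XC numR odR // q ≠ apx numR odR} where
  toFun p := ⟨phi hR hr p.1, fun hc => p.2 (by
    change mN hR p.1 = 1
    rw [← mC_phi hR hr, hc]
    exact (mC_eq_one hR _).2 rfl)⟩
  invFun q := ⟨psi hR hr q.1, fun hc => q.2 ((mC_eq_one hR _).1 (by
    by_contra hq
    have : mN hR (psi hR hr q.1) = 1 := hc
    rw [mN_psi hR hr _ hq] at this
    exact hq this))⟩
  left_inv p := Subtype.ext (psi_phi hR hr p.1 p.2)
  right_inv q := Subtype.ext (phi_psi hR hr q.1 (fun hc => q.2 ((mC_eq_one hR _).1 hc)))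
  continuous_toFun := by
    refine Continuous.subtype_mk ?_ _
    exact (continuousOn_iff_continuous_domRestrict.1 (phi_contOn hR hr))
  continuous_invFun := by
    refine Continuous.subtype_mk ?_ _
    have h1 : {q : XC numR odR | q ≠ apx numR odR} = {q | mC hR q ≠ 1} := by
      ext q
      exact not_congr (mC_eq_one hR q).symm
    have h2 := psi_contOn hR hr
    rw [← h1] at h2
    exact (continuousOn_iff_continuous_domRestrict.1 h2)

theorem homB3_coe (hR : ROk numR odR) (hr : Rad h k) (p : {p : XN numR odR // p ∉ core hR}) :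
    (homB3 hR hr p).1 = phi hR hr p.1 := rfl

end B3
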