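import Pool.Agent.Lib_MP_55d5ef_b3.PLB
import Pool.Agent.Lib_MP_55d5ef_i.BKH
import Pool.Agent.Lib_MP_55d5ef_i.IPL
import Pool.Agent.Lib_MP_55d5ef_pl.Asm

/-!
# `MP_55d5ef_gt`, level B: the steps B3 (surgery) and the product neighbourhood together
-/

set_option linter.unusedSectionVars false

open Fl49 Topology PL55 Lib_MP_55d5ef_geo

namespace B3

variable {R : Type} {numR : R → Fin 5 → ℕ} {odR : R → Fin 5 → List (Fin 5)}

theorem cA_prm (k : Fin 6) (x : Fin 5 → ℝ) : MP55I.cA k x = (prm k x).1 := by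
  fin_cases k <;> rfl

/-- The core is the set of helper62's parametrisation. -/
theorem core_eq (hR : ROk numR odR) :
    (MP55B.KH_B3 hR).iota0 '' {z | z.2 = 0} = core hR := by
  rw [(MP55B.KH_B3 hR).i4]
  ext y
  constructor
  · rintro ⟨t, k, x, hx, h1, rfl⟩
    rw [cA_prm] at h1
    change mN hR _ = 1
    rw [← h1, ← mN_inr hR (MP55B.bt t) k (mem_Dl.1 hx)]
    unfold chN
    rw [cp_of _ (mem_Dl.1 hx)]
    rfl
  · intro hy
    obtain ⟨i, x, hx, rfl⟩ := cp_surj y
    have hy' : mN hR (cp (numN numR) (odN odR) i x) = 1 := hy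
    rcases i with r | ⟨t, k⟩
    · rw [mN_inl hR r hx] at hy'
      exact absurd hy' (by norm_num)
    · have h1 := mN_inr hR t k hx
      unfold chN at h1
      rw [hy'] at h1
      refine ⟨MP55B.tb t, k, x, mem_Dl.2 hx, ?_, ?_⟩
      · rw [cA_prm]
        exact h1.symm
      · rw [cp_of _ hx]
        have e : MP55B.rcB (R := R) (MP55B.tb t) k = Sum.inr (t, k) := by
          unfold MP55B.rcB
          rw [MP55B.bt_tb]
        have : ∀ (i j : R ⊕ (Fin 2 × Fin 6)) (hij : i = j) (hi : i ∈ Set.univ)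
            (hj : j ∈ Set.univ) (h2 : x ∈ Dl (lab5 (ρ := R ⊕ (Fin 2 × Fin 6)) i))
            (h3 : x ∈ Dl (lab5 (ρ := R ⊕ (Fin 2 × Fin 6)) j)),
            pt lab5 (numN numR) (odN odR) i hi x h2 = pt lab5 (numN numR) (odN odR) j hj x h3 := by
          rintro i j rfl _ _ _ _
          rfl
        exact this _ _ e.symm _ _ _ _

/-- **Level B from the remaining links**: the ideal triangulation of the hyperbolic manifold, its
one-vertex (cone) form `XC`, and the sphere `XN`. -/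
theorem levelB_B3 {Γ : Subgroup (GL (Fin 5) ℝ)} (hΓ : IsFiniteVolumeManifoldGroup Γ)
    {ρC : Type} {labC : ρC → Finset (Fin 5)} {numC' : ρC → Fin 5 → ℕ}
    {odC' : ρC → Fin 5 → List (Fin 5)} {SC : Set ρC} (infC : Fl49.X labC numC' odC' SC)
    (hF : Fl49.X labC numC' odC' SC → HypQuot Γ)
    (eF : {x : Fl49.X labC numC' odC' SC // x ≠ infC} ≃ₜ HypQuot Γ) (heF : ∀ x, eF x = hF x.1)
    (pF : PDX labC numC' odC' SC {infC} H4 (Quotient.mk (orbitSetoid Γ)) hF)
    (hR : ROk numR odR)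
    (e2 : XC numR odR ≃ₜ Fl49.X labC numC' odC' SC) (he2 : e2 (apx numR odR) = infC)
    (p2 : PLX lab5 (numC numR) (odC odR) Set.univ {apx numR odR} labC numC' odC' SC {infC} e2)
    {ρS : Type} {labS : ρS → Finset (Fin 6)} {numS' : ρS → Fin 6 → ℕ}
    {odS : ρS → Fin 6 → List (Fin 6)} {SS : Set ρS} {cS : Fin 6 → ρS}
    (hS : Full labS numS' odS (Finset.univ : Finset (Fin 6)) cS SS)
    (e4 : Fl49.X labS numS' odS SS ≃ₜ XN numR odR)
    (p4 : PLX labS numS' odS SS ∅ lab5 (numN numR) (odN odR) Set.univ ∅ e4)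
    (p4' : PLX lab5 (numN numR) (odN odR) Set.univ ∅ labS numS' odS SS ∅ e4.symm) : LevelB :=
  levelB_of hΓ infC hF eF heF pF (apx numR odR) e2 he2 p2 (core hR) (phi hR radD)
    (homB3 hR radD) (homB3_coe hR radD) (phi_PLX hR) hS e4 p4 p4'
    (MP55B.KH_B3 hR).iota0 (MP55B.KH_B3 hR).i1 (MP55B.KH_B3 hR).i2 (MP55B.KH_B3 hR).i3
    (core_eq hR)

end B3
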