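import Pool.Agent.Lib_MP_55d5ef_b3.Star

/-!
# `MP_55d5ef_gt`, level B, step B3: facet numbers

`numK`, `numS`: numbers of the facets of the 12 simplices of `D² × T²` and of the 6 simplices of the
cone over `S¹ × T²`; all orderings are the increasing ones.  The numbers `0, …, 5` belong to the
common boundary `S¹ × T²`.
-/

namespace B3

variable {Y : Type*}

/-- corners of a facet in increasing order -/
def od5 (v : Fin 5) : List (Fin 5) :=
  (![[1, 2, 3, 4], [0, 2, 3, 4], [0, 1, 3, 4], [0, 1, 2, 4], [0, 1, 2, 3]] : Fin 5 → List (Fin 5)) v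

/-- facet numbers of `D² × T²` -/
def numK (t : Fin 2) (k : Fin 6) (v : Fin 5) : ℕ :=
  (![![![0, 20, 22, 50, 25], ![1, 26, 22, 28, 31], ![2, 32, 51, 28, 20],
       ![24, 26, 34, 36, 39], ![30, 32, 40, 36, 34], ![38, 52, 40, 42, 42]],
     ![![3, 21, 23, 50, 24], ![4, 27, 23, 29, 30], ![5, 33, 51, 29, 21],
       ![25, 27, 35, 37, 38], ![31, 33, 41, 37, 35], ![39, 52, 41, 43, 43]]] :
    Fin 2 → Fin 6 → Fin 5 → ℕ) t k v

/-- facet numbers of the cone over `S¹ × T²` -/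
def numS (t : Fin 2) (k : Fin 3) (v : Fin 5) : ℕ :=
  (![![![0, 10, 6, 16, 13], ![1, 12, 6, 8, 15], ![2, 14, 17, 8, 10]],
     ![![3, 11, 7, 16, 12], ![4, 13, 7, 9, 14], ![5, 15, 17, 9, 11]]] :
    Fin 2 → Fin 3 → Fin 5 → ℕ) t k v

/-- the value of a compatible family on the facet with number `n` -/
def HK (F : Fin 2 → Fin 6 → (Fin 5 → ℝ) → Y) (n : ℕ) (l : List ℝ) : Y :=
  match l with
  | [a, b, c, d] =>
    match n with
    | 0 => F 0 0 ![0, a, b, c, d]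
    | 1 => F 0 1 ![0, a, b, c, d]
    | 2 => F 0 2 ![0, a, b, c, d]
    | 3 => F 1 0 ![0, a, b, c, d]
    | 4 => F 1 1 ![0, a, b, c, d]
    | 5 => F 1 2 ![0, a, b, c, d]
    | 20 => F 0 2 ![a, b, c, d, 0]
    | 21 => F 1 2 ![a, b, c, d, 0]
    | 22 => F 0 1 ![a, b, 0, c, d]
    | 23 => F 1 1 ![a, b, 0, c, d]
    | 24 => F 1 0 ![a, b, c, d, 0]
    | 25 => F 0 0 ![a, b, c, d, 0]
    | 26 => F 0 3 ![a, 0, b, c, d]
    | 27 => F 1 3 ![a, 0, b, c, d]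
    | 28 => F 0 2 ![a, b, c, 0, d]
    | 29 => F 1 2 ![a, b, c, 0, d]
    | 30 => F 1 1 ![a, b, c, d, 0]
    | 31 => F 0 1 ![a, b, c, d, 0]
    | 32 => F 0 4 ![a, 0, b, c, d]
    | 33 => F 1 4 ![a, 0, b, c, d]
    | 34 => F 0 4 ![a, b, c, d, 0]
    | 35 => F 1 4 ![a, b, c, d, 0]
    | 36 => F 0 4 ![a, b, c, 0, d]
    | 37 => F 1 4 ![a, b, c, 0, d]
    | 38 => F 1 3 ![a, b, c, d, 0]
    | 39 => F 0 3 ![a, b, c, d, 0]
    | 40 => F 0 5 ![a, b, 0, c, d]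
    | 41 => F 1 5 ![a, b, 0, c, d]
    | 42 => F 0 5 ![a, b, c, d, 0]
    | 43 => F 1 5 ![a, b, c, d, 0]
    | 50 => F 0 0 ![a, b, c, 0, d]
    | 51 => F 0 2 ![a, b, 0, c, d]
    | 52 => F 0 5 ![a, 0, b, c, d]
    | _ => F 0 0 0
  | _ => F 0 0 0

/-- the same for the cone -/
def HS (F : Fin 2 → Fin 3 → (Fin 5 → ℝ) → Y) (n : ℕ) (l : List ℝ) : Y :=
  match l with
  | [a, b, c, d] =>
    match n with
    | 0 => F 0 0 ![0, a, b, c, d]
    | 1 => F 0 1 ![0, a, b, c, d]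
    | 2 => F 0 2 ![0, a, b, c, d]
    | 3 => F 1 0 ![0, a, b, c, d]
    | 4 => F 1 1 ![0, a, b, c, d]
    | 5 => F 1 2 ![0, a, b, c, d]
    | 6 => F 0 1 ![a, b, 0, c, d]
    | 7 => F 1 1 ![a, b, 0, c, d]
    | 8 => F 0 2 ![a, b, c, 0, d]
    | 9 => F 1 2 ![a, b, c, 0, d]
    | 10 => F 0 2 ![a, b, c, d, 0]
    | 11 => F 1 2 ![a, b, c, d, 0]
    | 12 => F 1 0 ![a, b, c, d, 0]
    | 13 => F 0 0 ![a, b, c, d, 0]
    | 14 => F 1 1 ![a, b, c, d, 0]
    | 15 => F 0 1 ![a, b, c, d, 0]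
    | 16 => F 0 0 ![a, b, c, 0, d]
    | 17 => F 0 2 ![a, b, 0, c, d]
    | _ => F 0 0 0
  | _ => F 0 0 0

theorem ins0 {x : Fin 5 → ℝ} (h : x 0 = 0) : x = ![0, x 1, x 2, x 3, x 4] := by
  funext i; fin_cases i <;> simp [h]
theorem ins1 {x : Fin 5 → ℝ} (h : x 1 = 0) : x = ![x 0, 0, x 2, x 3, x 4] := by
  funext i; fin_cases i <;> simp [h]
theorem ins2 {x : Fin 5 → ℝ} (h : x 2 = 0) : x = ![x 0, x 1, 0, x 3, x 4] := by
  funext i; fin_cases i <;> simp [h]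
theorem ins3 {x : Fin 5 → ℝ} (h : x 3 = 0) : x = ![x 0, x 1, x 2, 0, x 4] := by
  funext i; fin_cases i <;> simp [h]
theorem ins4 {x : Fin 5 → ℝ} (h : x 4 = 0) : x = ![x 0, x 1, x 2, x 3, 0] := by
  funext i; fin_cases i <;> simp [h]

theorem HK_spec {F : Fin 2 → Fin 6 → (Fin 5 → ℝ) → Y} (hk : KGlue F) (t : Fin 2) (k : Fin 6)
    (v : Fin 5) {x : Fin 5 → ℝ} (hx : x ∈ Sx) (h0 : x v = 0) :
    F t k x = HK F (numK t k v) ((od5 v).map x) := by
  fin_cases t <;> fin_cases k <;> fin_cases v <;>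
  first
    | exact congrArg _ (ins0 h0)
    | exact congrArg _ (ins1 h0)
    | exact congrArg _ (ins2 h0)
    | exact congrArg _ (ins3 h0)
    | exact congrArg _ (ins4 h0)
    | exact (hk.i01 _ x hx h0).trans (congrArg _ (ins2 h0))
    | exact (hk.i12 _ x hx h0).trans (congrArg _ (ins3 h0))
    | exact (hk.i13 _ x hx h0).trans (congrArg _ (ins1 h0))
    | exact (hk.i24 _ x hx h0).trans (congrArg _ (ins1 h0))
    | exact (hk.i34 _ x hx h0).trans (congrArg _ (ins3 h0))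
    | exact (hk.i45 _ x hx h0).trans (congrArg _ (ins2 h0))
    | exact hk.s02 _ x hx h0
    | exact hk.s34 _ x hx h0
    | exact hk.s55 _ x hx h0
    | exact hk.c30 _ x hx h0
    | exact hk.c41 _ x hx h0
    | exact hk.c53 _ x hx h0
    | exact (hk.m0 _ x hx h0).trans (congrArg _ (ins3 h0))
    | exact (hk.m2 _ x hx h0).trans (congrArg _ (ins2 h0))
    | exact (hk.m5 _ x hx h0).trans (congrArg _ (ins1 h0))

theorem HS_spec {F : Fin 2 → Fin 3 → (Fin 5 → ℝ) → Y} (hk : SGlue F) (t : Fin 2) (k : Fin 3)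
    (v : Fin 5) {x : Fin 5 → ℝ} (hx : x ∈ Sx) (h0 : x v = 0) :
    F t k x = HS F (numS t k v) ((od5 v).map x) := by
  fin_cases t <;> fin_cases k <;> fin_cases v <;>
  first
    | exact congrArg _ (ins0 h0)
    | exact congrArg _ (ins1 h0)
    | exact congrArg _ (ins2 h0)
    | exact congrArg _ (ins3 h0)
    | exact congrArg _ (ins4 h0)
    | exact (hk.i01 _ x hx h0).trans (congrArg _ (ins2 h0))
    | exact (hk.i12 _ x hx h0).trans (congrArg _ (ins3 h0))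
    | exact hk.s02 _ x hx h0
    | exact hk.c10 _ x hx h0
    | exact hk.c21 _ x hx h0
    | exact (hk.m0 _ x hx h0).trans (congrArg _ (ins3 h0))
    | exact (hk.m2 _ x hx h0).trans (congrArg _ (ins2 h0))

end B3
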