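import Pool.Agent.Lib_MP_55d5ef_b3.Hom
import Pool.Agent.Lib_MP_55d5ef_b3.Dya
import Pool.Agent.Lib_MP_55d5ef_pl.PLX

/-!
# `MP_55d5ef_gt`, level B, step B3: the homeomorphism is piecewise linear
-/

set_option linter.unusedSectionVars false

open Fl49 Topology PL55

namespace B3

section fin

variable {V : Type} [DecidableEq V] {ρ : Type} {lab : ρ → Finset V} {num : ρ → V → ℕ}
  {od : ρ → V → List V} {S : Set ρ}
variable {V' : Type} [DecidableEq V'] {ρ' : Type} {lab' : ρ' → Finset V'} {num' : ρ' → V' → ℕ}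
  {od' : ρ' → V' → List V'} {S' : Set ρ'}

/-- `PLX.of_pieces` with an arbitrary finite index type -/
theorem PLX_of_fin {T : Set (Fl49.X lab num od S)} {T' : Set (Fl49.X lab' num' od' S')}
    {f : Fl49.X lab num od S → Fl49.X lab' num' od' S'}
    (hT : ∀ x, x ∉ T → f x ∉ T')
    (h : ∀ i : S, ∀ p (hp : p ∈ Dl (lab i)), pt lab num od i i.2 p hp ∉ T →
      ∃ (κ : Type) (_ : Fintype κ) (Q : κ → Set (V → ℝ)) (j : κ → S')
        (A : κ → (V → ℝ) →L[ℝ] (V' → ℝ)) (b : κ → V' → ℝ),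
        (∀ k, HPoly (Q k)) ∧
        (∀ k, ∀ x ∈ Q k, ∀ hx : x ∈ Dl (lab i), pt lab num od i i.2 x hx ∉ T →
          ∃ hy : A k x + b k ∈ Dl (lab' (j k)),
          f (pt lab num od i i.2 x hx) = pt lab' num' od' (j k) (j k).2 (A k x + b k) hy) ∧
        (∀ k, ∀ v ∈ dirs (lab i), A k v ∈ dirs (lab' (j k)) ∧ (A k v = 0 → v = 0)) ∧
        (∀ᶠ x in nhdsWithin p (dom lab num od S T i), ∃ k, x ∈ Q k)) :
    PLX lab num od S T lab' num' od' S' T' f := by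
  refine PLX.of_pieces hT ?_
  intro i p hp hpT
  obtain ⟨κ, _, Q, j, A, b, h1, h2, h3, h4⟩ := h i p hp hpT
  let e := Fintype.equivFin κ
  refine ⟨Fintype.card κ, fun k => Q (e.symm k), fun k => j (e.symm k), fun k => A (e.symm k),
    fun k => b (e.symm k), fun k => h1 _, fun k => h2 _, fun k => h3 _, ?_⟩
  filter_upwards [h4] with x hx
  obtain ⟨k, hk⟩ := hx
  exact ⟨e k, by simpa using hk⟩

end fin

/-- an affine function -/
structure Af where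
  l : (Fin 5 → ℝ) →L[ℝ] ℝ
  c : ℝ

/-- its values -/
def Af.ev (u : Af) (x : Fin 5 → ℝ) : ℝ := u.l x + u.c

theorem Af.hpoly (u v : Af) : HPoly {x | u.ev x ≤ v.ev x} := by
  have h := HPoly.halfspace (v.l - u.l) (v.c - u.c)
  have e : {x | u.ev x ≤ v.ev x} = {x | 0 ≤ (v.l - u.l) x + (v.c - u.c)} := by
    ext x
    simp only [Set.mem_ofPred_eq, Af.ev, sub_apply]
    constructor <;> intro h <;> linarith
  rw [e]
  exact h

/-- the linear part of the affine map with given cumulative coordinates -/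
noncomputable def difA (u1 u2 u3 u4 : Af) : (Fin 5 → ℝ) →L[ℝ] (Fin 5 → ℝ) :=
  ContinuousLinearMap.pi ![u1.l, u2.l - u1.l, u3.l - u2.l, u4.l - u3.l, -u4.l]

/-- the constant part -/
noncomputable def difb (u1 u2 u3 u4 : Af) : Fin 5 → ℝ :=
  ![u1.c, u2.c - u1.c, u3.c - u2.c, u4.c - u3.c, 1 - u4.c]

theorem difA_apply (u1 u2 u3 u4 : Af) (x : Fin 5 → ℝ) :
    difA u1 u2 u3 u4 x + difb u1 u2 u3 u4 = dif (u1.ev x) (u2.ev x) (u3.ev x) (u4.ev x) := by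
  funext i
  fin_cases i <;> simp [difA, difb, dif, Af.ev] <;> ring

theorem difA_val (u1 u2 u3 u4 : Af) (v : Fin 5 → ℝ) :
    difA u1 u2 u3 u4 v = ![u1.l v, u2.l v - u1.l v, u3.l v - u2.l v, u4.l v - u3.l v,
      -u4.l v] := by
  funext i
  fin_cases i <;> simp [difA]

theorem difA_dirs (u1 u2 u3 u4 : Af) (v : Fin 5 → ℝ) :
    difA u1 u2 u3 u4 v ∈ dirs (Finset.univ : Finset (Fin 5)) := by
  refine ⟨fun u hu => absurd (Finset.mem_univ u) hu, ?_⟩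
  rw [difA_val, Fin.sum_univ_five]
  simp

theorem difA_inj {u1 u2 u3 u4 : Af} {v : Fin 5 → ℝ} (h : difA u1 u2 u3 u4 v = 0) :
    u1.l v = 0 ∧ u2.l v = 0 ∧ u3.l v = 0 ∧ u4.l v = 0 := by
  rw [difA_val] at h
  have h0 := congrFun h 0
  have h1 := congrFun h 1
  have h2 := congrFun h 2
  have h3 := congrFun h 3
  simp at h0 h1 h2 h3
  refine ⟨h0, ?_, ?_, ?_⟩ <;> linarith

/-- a coordinate -/
noncomputable def pj (i : Fin 5) : (Fin 5 → ℝ) →L[ℝ] ℝ :=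
  ContinuousLinearMap.proj (R := ℝ) (φ := fun _ : Fin 5 => ℝ) i

theorem pj_apply (i : Fin 5) (x : Fin 5 → ℝ) : pj i x = x i := rfl

/-- cumulative sums -/
noncomputable def cs : Fin 4 → (Fin 5 → ℝ) →L[ℝ] ℝ :=
  ![pj 0, pj 0 + pj 1, pj 0 + pj 1 + pj 2, pj 0 + pj 1 + pj 2 + pj 3]

/-- which cumulative sum is the parameter `f₀, f₁, g₀, g₁` -/
def wd : Fin 6 → Fin 4 → Fin 4 :=
  ![![0, 1, 2, 3], ![0, 2, 1, 3], ![0, 3, 1, 2], ![1, 2, 0, 3], ![1, 3, 0, 2], ![2, 3, 0, 1]]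

theorem prm_eq (k : Fin 6) (x : Fin 5 → ℝ) :
    prm k x = (cs (wd k 0) x, cs (wd k 1) x, cs (wd k 2) x, cs (wd k 3) x) := by
  fin_cases k <;> simp [prm, ev6, cs, wd, pj_apply]

theorem cs_inj {v : Fin 5 → ℝ} (hv : v ∈ dirs (Finset.univ : Finset (Fin 5)))
    (h : ∀ m, cs m v = 0) : v = 0 := by
  have h0 := h 0
  have h1 := h 1
  have h2 := h 2
  have h3 := h 3
  have h4 := hv.2
  rw [Fin.sum_univ_five] at h4
  simp [cs, pj_apply] at h0 h1 h2 h3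
  funext i
  fin_cases i <;> simp <;> linarith

theorem wd_surj : ∀ (k : Fin 6) (m : Fin 4), ∃ r, wd k r = m := by decide

/-- the four parameters as affine functions -/
noncomputable def pr (k : Fin 6) (m : Fin 4) : Af := ⟨cs (wd k m), 0⟩

theorem pr_inj {k : Fin 6} {v : Fin 5 → ℝ} (hv : v ∈ dirs (Finset.univ : Finset (Fin 5)))
    (h0 : (pr k 0).l v = 0) (h1 : (pr k 1).l v = 0) (h2 : (pr k 2).l v = 0)
    (h3 : (pr k 3).l v = 0) : v = 0 := by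
  refine cs_inj hv fun m => ?_
  obtain ⟨r, rfl⟩ := wd_surj k m
  fin_cases r
  · exact h0
  · exact h1
  · exact h2
  · exact h3

/-- the branch `s` of the piece `a` of `hd f g` -/
noncomputable def Yb (a : ℝ) (s : Bool) (f g : Af) : Af :=
  bif s then ⟨a • g.l, 1 - a + a * g.c⟩ else ⟨f.l + (a / 2) • g.l, f.c + a / 2 * g.c⟩

theorem Yb_true (a : ℝ) (f g : Af) (x : Fin 5 → ℝ) :
    (Yb a true f g).ev x = 1 - a + a * g.ev x := by
  simp [Yb, Af.ev]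
  ring

theorem Yb_false (a : ℝ) (f g : Af) (x : Fin 5 → ℝ) :
    (Yb a false f g).ev x = f.ev x + a / 2 * g.ev x := by
  simp [Yb, Af.ev]
  ring

theorem Yb_hn {a : ℝ} {s : Bool} {f g : Af} {x : Fin 5 → ℝ}
    (h : (Yb a (!s) f g).ev x ≤ (Yb a s f g).ev x) :
    (Yb a s f g).ev x = hn a (f.ev x) (g.ev x) := by
  unfold hn
  cases s
  · simp only [Bool.not_false] at h
    rw [Yb_true, Yb_false] at h
    rw [Yb_false, max_eq_left h]
  · simp only [Bool.not_true] at h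
    rw [Yb_true, Yb_false] at h
    rw [Yb_true, max_eq_right h]

theorem Yb_cover (a : ℝ) (f g : Af) (x : Fin 5 → ℝ) :
    ∃ s, (Yb a (!s) f g).ev x ≤ (Yb a s f g).ev x := by
  rcases le_total ((Yb a true f g).ev x) ((Yb a false f g).ev x) with h | h
  · exact ⟨false, h⟩
  · exact ⟨true, h⟩

theorem Yb_l {a : ℝ} (ha : 0 < a) {s : Bool} {f g : Af} {v : Fin 5 → ℝ}
    (h : (Yb a s f g).l v = 0) (hf : f.l v = 0) : g.l v = 0 := by
  cases s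
  · simp only [Yb, cond_false, add_apply, smul_apply,
      smul_eq_mul, hf, zero_add] at h
    have : a / 2 ≠ 0 := by positivity
    exact (mul_eq_zero.1 h).resolve_left this
  · simp only [Yb, cond_true, smul_apply, smul_eq_mul] at h
    exact (mul_eq_zero.1 h).resolve_left ha.ne'

/-- the affine functions of a word of the cone -/
def wA (w : Fin 3) (f0 f1 y0 y1 : Af) : Fin 4 → Af :=
  match w with
  | 0 => ![f0, f1, y0, y1]
  | 1 => ![f0, y0, f1, y1]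
  | 2 => ![f0, y0, y1, f1]

/-- the condition of a word of the cone -/
def wQ (w : Fin 3) (f1 y0 y1 : Af) : Set (Fin 5 → ℝ) :=
  match w with
  | 0 => {x | f1.ev x ≤ y0.ev x}
  | 1 => {x | y0.ev x ≤ f1.ev x} ∩ {x | f1.ev x ≤ y1.ev x}
  | 2 => {x | y1.ev x ≤ f1.ev x}

theorem wQ_hpoly (w : Fin 3) (f1 y0 y1 : Af) : HPoly (wQ w f1 y0 y1) := by
  fin_cases w
  · exact Af.hpoly _ _
  · exact (Af.hpoly _ _).inter (Af.hpoly _ _)
  · exact Af.hpoly _ _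

theorem wQ_cover (f1 y0 y1 : Af) (x : Fin 5 → ℝ) : ∃ w, x ∈ wQ w f1 y0 y1 := by
  rcases cases3 (f1.ev x) (y0.ev x) (y1.ev x) with c | c | c
  · exact ⟨0, c⟩
  · exact ⟨1, c⟩
  · exact ⟨2, c⟩

theorem wA_l {w : Fin 3} {f0 f1 y0 y1 : Af} {v : Fin 5 → ℝ}
    (h : difA (wA w f0 f1 y0 y1 0) (wA w f0 f1 y0 y1 1) (wA w f0 f1 y0 y1 2)
      (wA w f0 f1 y0 y1 3) v = 0) :
    f0.l v = 0 ∧ f1.l v = 0 ∧ y0.l v = 0 ∧ y1.l v = 0 := by
  obtain ⟨h1, h2, h3, h4⟩ := difA_inj h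
  fin_cases w
  · exact ⟨h1, h2, h3, h4⟩
  · exact ⟨h1, h3, h2, h4⟩
  · exact ⟨h1, h4, h2, h3⟩

theorem PC_w {Y : Type*} {ch : Fin 2 → Fin 3 → (Fin 5 → ℝ) → Y} (hk : SGlue ch) (t : Fin 2)
    {w : Fin 3} {f0 f1 y0 y1 : Af} {x : Fin 5 → ℝ}
    (ho : OkC (f0.ev x) (f1.ev x) (y0.ev x) (y1.ev x)) (hx : x ∈ wQ w f1 y0 y1) :
    dif ((wA w f0 f1 y0 y1 0).ev x) ((wA w f0 f1 y0 y1 1).ev x) ((wA w f0 f1 y0 y1 2).ev x)
        ((wA w f0 f1 y0 y1 3).ev x) ∈ Sx ∧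
    PC ch t (f0.ev x) (f1.ev x) (y0.ev x) (y1.ev x)
      = ch t w (dif ((wA w f0 f1 y0 y1 0).ev x) ((wA w f0 f1 y0 y1 1).ev x)
        ((wA w f0 f1 y0 y1 2).ev x) ((wA w f0 f1 y0 y1 3).ev x)) := by
  have ho' := ho
  obtain ⟨a0, a1, a2, b0, b1, b2⟩ := ho'
  fin_cases w
  · exact ⟨dif_mem a0 a1 hx b1 b2, PC0 hx⟩
  · exact ⟨dif_mem a0 b0 hx.1 hx.2 b2, PC1 hk ho hx.1 hx.2⟩
  · exact ⟨dif_mem a0 b0 b1 hx a2, PC2 hk ho hx⟩

variable {R : Type} {numR : R → Fin 5 → ℕ} {odR : R → Fin 5 → List (Fin 5)}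

/-- constants -/
noncomputable def ct (c : ℝ) : Af := ⟨0, c⟩

theorem ct_ev (c : ℝ) (x : Fin 5 → ℝ) : (ct c).ev x = c := by simp [ct, Af.ev]

/-- the polyhedra -/
noncomputable def Qp (k : Fin 6) (n : ℕ) (s0 s1 : Bool) (w : Fin 3) : Set (Fin 5 → ℝ) :=
  {x | (ct (1 - an n)).ev x ≤ (pr k 0).ev x} ∩ ({x | (pr k 0).ev x ≤ (ct (1 - an n / 2)).ev x} ∩
    ({x | (Yb (an n) (!s0) (pr k 0) (pr k 2)).ev x ≤ (Yb (an n) s0 (pr k 0) (pr k 2)).ev x} ∩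
    ({x | (Yb (an n) (!s1) (pr k 0) (pr k 3)).ev x ≤ (Yb (an n) s1 (pr k 0) (pr k 3)).ev x} ∩
    wQ w (pr k 1) (Yb (an n) s0 (pr k 0) (pr k 2)) (Yb (an n) s1 (pr k 0) (pr k 3)))))

theorem Qp_hpoly (k : Fin 6) (n : ℕ) (s0 s1 : Bool) (w : Fin 3) : HPoly (Qp k n s0 s1 w) :=
  (Af.hpoly _ _).inter ((Af.hpoly _ _).inter ((Af.hpoly _ _).inter ((Af.hpoly _ _).inter
    (wQ_hpoly _ _ _ _))))

/-- the affine functions of the pieces -/
noncomputable def wP (k : Fin 6) (n : ℕ) (s0 s1 : Bool) (w : Fin 3) : Fin 4 → Af :=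
  wA w (pr k 0) (pr k 1) (Yb (an n) s0 (pr k 0) (pr k 2)) (Yb (an n) s1 (pr k 0) (pr k 3))

theorem pr_ev (k : Fin 6) (x : Fin 5 → ℝ) :
    (pr k 0).ev x = (prm k x).1 ∧ (pr k 1).ev x = (prm k x).2.1 ∧
      (pr k 2).ev x = (prm k x).2.2.1 ∧ (pr k 3).ev x = (prm k x).2.2.2 := by
  rw [prm_eq]
  simp [pr, Af.ev]

theorem phi_piece (hR : ROk numR odR) (t : Fin 2) (k : Fin 6) {n : ℕ} {s0 s1 : Bool} {w : Fin 3}
    {x : Fin 5 → ℝ} (hx : x ∈ Sx) (hQ : x ∈ Qp k n s0 s1 w) (hf : (prm k x).1 < 1) :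
    dif ((wP k n s0 s1 w 0).ev x) ((wP k n s0 s1 w 1).ev x) ((wP k n s0 s1 w 2).ev x)
        ((wP k n s0 s1 w 3).ev x) ∈ Sx ∧
    phi hR radD (chN numR odR t k x)
      = chC numR odR t w (dif ((wP k n s0 s1 w 0).ev x) ((wP k n s0 s1 w 1).ev x)
        ((wP k n s0 s1 w 2).ev x) ((wP k n s0 s1 w 3).ev x)) := by
  obtain ⟨h1, h2, h3, h4, h5⟩ := hQ
  have e3 := Yb_hn h3
  have e4 := Yb_hn h4
  change (ct (1 - an n)).ev x ≤ (pr k 0).ev x at h1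
  change (pr k 0).ev x ≤ (ct (1 - an n / 2)).ev x at h2
  rw [ct_ev] at h1 h2
  obtain ⟨p0, p1, p2, p3⟩ := pr_ev k x
  have ho := prm_ok k hx
  have hc := radD.okC ho hf
  rw [p0] at h1 h2 e3 e4
  rw [p2] at e3
  rw [p3] at e4
  rw [← hd_eq hf ho.b0 (ho.b1.trans ho.b2) h1 h2] at e3
  rw [← hd_eq hf (ho.b0.trans ho.b1) ho.b2 h1 h2] at e4
  have key := PC_w (chC_glue (numR := numR) (odR := odR)) t (w := w) (f0 := pr k 0) (f1 := pr k 1)
    (y0 := Yb (an n) s0 (pr k 0) (pr k 2)) (y1 := Yb (an n) s1 (pr k 0) (pr k 3)) (x := x)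
    (by rw [p0, p1, e3, e4]; exact hc) h5
  refine ⟨key.1, ?_⟩
  have e5 : phi hR radD (chN numR odR t k x) = PC (chC numR odR) t ((pr k 0).ev x)
      ((pr k 1).ev x) ((Yb (an n) s0 (pr k 0) (pr k 2)).ev x)
      ((Yb (an n) s1 (pr k 0) (pr k 3)).ev x) := by
    unfold phi
    rw [liftN_inr hR _ t k hx, ev6_prm, p0, p1, e3, e4]
    exact if_pos hf
  rw [e5]
  exact key.2

theorem wP_inj {k : Fin 6} {n : ℕ} {s0 s1 : Bool} {w : Fin 3} {v : Fin 5 → ℝ}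
    (hv : v ∈ dirs (Finset.univ : Finset (Fin 5)))
    (h : difA (wP k n s0 s1 w 0) (wP k n s0 s1 w 1) (wP k n s0 s1 w 2) (wP k n s0 s1 w 3) v = 0) :
    v = 0 := by
  obtain ⟨h0, h1, h2, h3⟩ := wA_l h
  exact pr_inj hv h0 h1 (Yb_l (an_pos n) h2 h0) (Yb_l (an_pos n) h3 h0)

theorem Qp_cover (k : Fin 6) {x : Fin 5 → ℝ} (hx : x ∈ Sx) (hf : (prm k x).1 < 1) {M : ℕ}
    (hM : (prm k x).1 ≤ 1 - an M / 2) :
    ∃ (n : Fin (M + 1)) (s0 s1 : Bool) (w : Fin 3), x ∈ Qp k n s0 s1 w := by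
  have h1 : lev (prm k x).1 ≤ M := by
    by_contra hc
    have := lev_lt hf (not_le.1 hc)
    linarith
  obtain ⟨s0, hs0⟩ := Yb_cover (an (lev (prm k x).1)) (pr k 0) (pr k 2) x
  obtain ⟨s1, hs1⟩ := Yb_cover (an (lev (prm k x).1)) (pr k 0) (pr k 3) x
  obtain ⟨w, hw⟩ := wQ_cover (pr k 1) (Yb (an (lev (prm k x).1)) s0 (pr k 0) (pr k 2))
    (Yb (an (lev (prm k x).1)) s1 (pr k 0) (pr k 3)) x
  refine ⟨⟨lev (prm k x).1, Nat.lt_succ_of_le h1⟩, s0, s1, w, ?_, ?_, hs0, hs1, hw⟩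
  · change (ct _).ev x ≤ _
    rw [ct_ev, (pr_ev k x).1]
    exact lev_ge (prm_ok k hx).a0 hf
  · change _ ≤ (ct _).ev x
    rw [ct_ev, (pr_ev k x).1]
    exact lev_le hf

/-- **Step B3 is piecewise linear.** -/
theorem phi_PLX (hR : ROk numR odR) :
    PLX (lab5 (ρ := R ⊕ (Fin 2 × Fin 6))) (numN numR) (odN odR) Set.univ (core hR)
      (lab5 (ρ := R ⊕ (Fin 2 × Fin 3))) (numC numR) (odC odR) Set.univ {apx numR odR}
      (phi hR radD) := by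
  refine PLX_of_fin ?_ ?_
  · intro x hx hc
    apply hx
    change mN hR x = 1
    rw [← mC_phi hR radD, Set.mem_singleton_iff.1 hc]
    exact (mC_eq_one hR _).2 rfl
  · rintro ⟨i, hi⟩ p hp hT
    rcases i with r | ⟨t, k⟩
    · refine ⟨Unit, inferInstance, fun _ => Set.univ, fun _ => ⟨Sum.inl r, Set.mem_univ _⟩,
        fun _ => ContinuousLinearMap.id ℝ _, fun _ => 0, fun _ => HPoly.univ, ?_, ?_, ?_⟩
      · intro _ x _ hx _
        have e : (ContinuousLinearMap.id ℝ (Fin 5 → ℝ)) x + 0 = x := by simp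
        refine ⟨by rw [e]; exact hx, ?_⟩
        have h1 := liftN_inl hR (LN_phi hR radD) r (mem_Dl.1 hx)
        rw [cp_of _ (mem_Dl.1 hx), cp_of _ (mem_Dl.1 hx)] at h1
        simp only [e]
        exact h1
      · intro _ v hv
        exact ⟨hv, fun h => h⟩
      · exact Filter.Eventually.of_forall fun x => ⟨(), Set.mem_univ x⟩
    · have hps := mem_Dl.1 hp
      have hc : ∀ x (hx : x ∈ Dl (lab5 (ρ := R ⊕ (Fin 2 × Fin 6)) (Sum.inr (t, k)))),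
          pt (lab5 (ρ := R ⊕ (Fin 2 × Fin 6))) (numN numR) (odN odR) (Sum.inr (t, k))
            (Set.mem_univ _) x hx ∉ core hR → (prm k x).1 < 1 := by
        intro x hx hx1
        have ho := prm_ok k (mem_Dl.1 hx)
        refine lt_of_le_of_ne (ho.a1.trans ho.a2) fun he => hx1 ?_
        change mN hR _ = 1
        rw [← he, ← mN_inr hR t k (mem_Dl.1 hx)]
        unfold chN
        rw [cp_of _ (mem_Dl.1 hx)]
      have hf := hc p hp hT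
      obtain ⟨M, hM⟩ := an_small (sub_pos.2 hf)
      have hpos := an_pos M
      refine ⟨Fin (M + 1) × Bool × Bool × Fin 3, inferInstance,
        fun q => Qp k q.1 q.2.1 q.2.2.1 q.2.2.2,
        fun q => ⟨Sum.inr (t, q.2.2.2), Set.mem_univ _⟩,
        fun q => difA (wP k q.1 q.2.1 q.2.2.1 q.2.2.2 0) (wP k q.1 q.2.1 q.2.2.1 q.2.2.2 1)
          (wP k q.1 q.2.1 q.2.2.1 q.2.2.2 2) (wP k q.1 q.2.1 q.2.2.1 q.2.2.2 3),
        fun q => difb (wP k q.1 q.2.1 q.2.2.1 q.2.2.2 0) (wP k q.1 q.2.1 q.2.2.1 q.2.2.2 1)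
          (wP k q.1 q.2.1 q.2.2.1 q.2.2.2 2) (wP k q.1 q.2.1 q.2.2.1 q.2.2.2 3),
        fun q => Qp_hpoly _ _ _ _ _, ?_, ?_, ?_⟩
      · rintro ⟨n, s0, s1, w⟩ x hQ hx hx1
        have hx' := mem_Dl.1 hx
        obtain ⟨h1, h2⟩ := phi_piece hR t k hx' hQ (hc x hx hx1)
        simp only [difA_apply]
        refine ⟨mem_Dl.2 h1, ?_⟩
        unfold chN chC at h2
        rw [cp_of _ hx', cp_of _ h1] at h2
        exact h2
      · rintro ⟨n, s0, s1, w⟩ v hv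
        exact ⟨difA_dirs _ _ _ _ v, fun h => wP_inj hv h⟩
      · have h2 : {q : Fin 5 → ℝ | (prm k q).1 < 1 - an M / 2} ∈ 𝓝 p :=
          (isOpen_lt (continuous_fst.comp (prm_cont k)) continuous_const).mem_nhds (by
            change (prm k p).1 < 1 - an M / 2
            linarith)
        filter_upwards [mem_nhdsWithin_of_mem_nhds h2, self_mem_nhdsWithin] with x hx hd
        obtain ⟨hx1, hx2⟩ := hd
        have hx3 : (prm k x).1 < 1 - an M / 2 := hx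
        obtain ⟨n, s0, s1, w, hq⟩ := Qp_cover k (mem_Dl.1 hx1) (hc x hx1 hx2) hx3.le
        exact ⟨(n, s0, s1, w), hq⟩

end B3
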