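import Mathlib

/-!
# `MP_55d5ef_gt`, level B, step B3: cumulative coordinates

A point of an ordered 4-simplex is given by its cumulative sums `0 ≤ u 1 ≤ u 2 ≤ u 3 ≤ u 4 ≤ 1`.
The product triangulation of `D² × T²` (12 pentachora) and the cone over `S¹ × T²`
(6 pentachora) are both described by the parameters `(f₀, f₁, g₀, g₁)`:
`f` = boundaries of the rows, `g` = boundaries of the columns.

The six simplices of (triangle) × (triangle) are numbered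
`0 = RRCC, 1 = RCRC, 2 = RCCR, 3 = CRRC, 4 = CRCR, 5 = CCRR`
(the order of `f₀ ≤ f₁` (letters R) and `g₀ ≤ g₁` (letters C)).
-/

namespace B3

/-- the standard simplex -/
def Sx : Set (Fin 5 → ℝ) := {x | (∀ i, 0 ≤ x i) ∧ x 0 + x 1 + x 2 + x 3 + x 4 = 1}

/-- the point with cumulative sums `a, b, c, d` -/
def dif (a b c d : ℝ) : Fin 5 → ℝ := ![a, b - a, c - b, d - c, 1 - d]

theorem dif_mem {a b c d : ℝ} (h0 : 0 ≤ a) (h1 : a ≤ b) (h2 : b ≤ c) (h3 : c ≤ d) (h4 : d ≤ 1) :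
    dif a b c d ∈ Sx := by
  refine ⟨fun i => ?_, ?_⟩
  · fin_cases i <;> simp [dif] <;> linarith
  · simp [dif]

theorem dif_of_mem {x : Fin 5 → ℝ} (hx : x ∈ Sx) :
    dif (x 0) (x 0 + x 1) (x 0 + x 1 + x 2) (x 0 + x 1 + x 2 + x 3) = x := by
  funext i
  have h := hx.2
  fin_cases i <;> simp [dif]
  linarith

/-- parameters in the domain of the product of two triangles -/
structure Ok (f0 f1 g0 g1 : ℝ) : Prop where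
  a0 : 0 ≤ f0
  a1 : f0 ≤ f1
  a2 : f1 ≤ 1
  b0 : 0 ≤ g0
  b1 : g0 ≤ g1
  b2 : g1 ≤ 1

variable {X : Type*}

/-- gluing data of the product triangulation of `D² × T²`, as equalities of chart values -/
structure KGlue (ch : Fin 2 → Fin 6 → (Fin 5 → ℝ) → X) : Prop where
  i01 : ∀ t, ∀ x ∈ Sx, x 2 = 0 → ch t 0 x = ch t 1 x
  i12 : ∀ t, ∀ x ∈ Sx, x 3 = 0 → ch t 1 x = ch t 2 x
  i13 : ∀ t, ∀ x ∈ Sx, x 1 = 0 → ch t 1 x = ch t 3 x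
  i24 : ∀ t, ∀ x ∈ Sx, x 1 = 0 → ch t 2 x = ch t 4 x
  i34 : ∀ t, ∀ x ∈ Sx, x 3 = 0 → ch t 3 x = ch t 4 x
  i45 : ∀ t, ∀ x ∈ Sx, x 2 = 0 → ch t 4 x = ch t 5 x
  s02 : ∀ t, ∀ x ∈ Sx, x 1 = 0 → ch t 0 x = ch t 2 ![x 0, x 2, x 3, x 4, 0]
  s34 : ∀ t, ∀ x ∈ Sx, x 2 = 0 → ch t 3 x = ch t 4 ![x 0, x 1, x 3, x 4, 0]
  s55 : ∀ t, ∀ x ∈ Sx, x 3 = 0 → ch t 5 x = ch t 5 ![x 0, x 1, x 2, x 4, 0]
  c30 : ∀ t, ∀ x ∈ Sx, x 0 = 0 → ch t 3 x = ch (1 - t) 0 ![x 1, x 2, x 3, x 4, 0]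
  c41 : ∀ t, ∀ x ∈ Sx, x 0 = 0 → ch t 4 x = ch (1 - t) 1 ![x 1, x 2, x 3, x 4, 0]
  c53 : ∀ t, ∀ x ∈ Sx, x 0 = 0 → ch t 5 x = ch (1 - t) 3 ![x 1, x 2, x 3, x 4, 0]
  m0 : ∀ t, ∀ x ∈ Sx, x 3 = 0 → ch t 0 x = ch (1 - t) 0 x
  m2 : ∀ t, ∀ x ∈ Sx, x 2 = 0 → ch t 2 x = ch (1 - t) 2 x
  m5 : ∀ t, ∀ x ∈ Sx, x 1 = 0 → ch t 5 x = ch (1 - t) 5 x

/-- the point of `D² × T²` with parameters `(f₀, f₁, g₀, g₁)` -/
noncomputable def PN (ch : Fin 2 → Fin 6 → (Fin 5 → ℝ) → X) (t : Fin 2) (f0 f1 g0 g1 : ℝ) : X :=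
  if g0 < f0 then
    (if g1 < f0 then ch t 5 (dif g0 g1 f0 f1)
     else if g1 < f1 then ch t 4 (dif g0 f0 g1 f1) else ch t 3 (dif g0 f0 f1 g1))
  else if g0 < f1 then
    (if g1 < f1 then ch t 2 (dif f0 g0 g1 f1) else ch t 1 (dif f0 g0 f1 g1))
  else ch t 0 (dif f0 f1 g0 g1)

section

variable {ch : Fin 2 → Fin 6 → (Fin 5 → ℝ) → X} {t : Fin 2} {f0 f1 g0 g1 : ℝ}

theorem PN0 (h : Ok f0 f1 g0 g1) (h1 : f1 ≤ g0) :
    PN ch t f0 f1 g0 g1 = ch t 0 (dif f0 f1 g0 g1) := by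
  have := h.a1
  unfold PN
  rw [if_neg (by linarith), if_neg (by linarith)]

theorem PN1 (hk : KGlue ch) (h : Ok f0 f1 g0 g1) (h1 : f0 ≤ g0) (h2 : g0 ≤ f1) (h3 : f1 ≤ g1) :
    PN ch t f0 f1 g0 g1 = ch t 1 (dif f0 g0 f1 g1) := by
  obtain ⟨a0, a1, a2, b0, b1, b2⟩ := h
  rcases lt_or_eq_of_le h2 with h4 | h4
  · unfold PN
    rw [if_neg (by linarith), if_pos h4, if_neg (by linarith)]
  · subst h4
    rw [PN0 ⟨a0, a1, a2, b0, b1, b2⟩ le_rfl]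
    exact hk.i01 t _ (dif_mem a0 a1 le_rfl b1 b2) (by simp [dif])

theorem PN2 (hk : KGlue ch) (h : Ok f0 f1 g0 g1) (h1 : f0 ≤ g0) (h2 : g1 ≤ f1) :
    PN ch t f0 f1 g0 g1 = ch t 2 (dif f0 g0 g1 f1) := by
  obtain ⟨a0, a1, a2, b0, b1, b2⟩ := h
  rcases lt_or_eq_of_le h2 with h4 | h4
  · unfold PN
    rw [if_neg (by linarith), if_pos (by linarith), if_pos h4]
  · subst h4
    rw [PN1 hk ⟨a0, a1, a2, b0, b1, b2⟩ h1 b1 le_rfl]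
    exact hk.i12 t _ (dif_mem a0 h1 b1 le_rfl b2) (by simp [dif])

theorem PN3 (hk : KGlue ch) (h : Ok f0 f1 g0 g1) (h1 : g0 ≤ f0) (h2 : f1 ≤ g1) :
    PN ch t f0 f1 g0 g1 = ch t 3 (dif g0 f0 f1 g1) := by
  obtain ⟨a0, a1, a2, b0, b1, b2⟩ := h
  rcases lt_or_eq_of_le h1 with h4 | h4
  · unfold PN
    rw [if_pos h4, if_neg (by linarith), if_neg (by linarith)]
  · subst h4
    rw [PN1 hk ⟨a0, a1, a2, b0, b1, b2⟩ le_rfl a1 h2]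
    exact hk.i13 t _ (dif_mem a0 le_rfl a1 h2 b2) (by simp [dif])

theorem PN4 (hk : KGlue ch) (h : Ok f0 f1 g0 g1) (h1 : g0 ≤ f0) (h2 : f0 ≤ g1) (h3 : g1 ≤ f1) :
    PN ch t f0 f1 g0 g1 = ch t 4 (dif g0 f0 g1 f1) := by
  obtain ⟨a0, a1, a2, b0, b1, b2⟩ := h
  rcases lt_or_eq_of_le h1 with h4 | h4
  · rcases lt_or_eq_of_le h3 with h5 | h5
    · unfold PN
      rw [if_pos h4, if_neg (by linarith), if_pos h5]
    · subst h5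
      rw [PN3 hk ⟨a0, a1, a2, b0, b1, b2⟩ h1 le_rfl]
      exact hk.i34 t _ (dif_mem b0 h1 a1 le_rfl b2) (by simp [dif])
  · subst h4
    rw [PN2 hk ⟨a0, a1, a2, b0, b1, b2⟩ le_rfl h3]
    exact hk.i24 t _ (dif_mem a0 le_rfl b1 h3 a2) (by simp [dif])

theorem PN5 (hk : KGlue ch) (h : Ok f0 f1 g0 g1) (h1 : g1 ≤ f0) :
    PN ch t f0 f1 g0 g1 = ch t 5 (dif g0 g1 f0 f1) := by
  obtain ⟨a0, a1, a2, b0, b1, b2⟩ := h
  rcases lt_or_eq_of_le h1 with h4 | h4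
  · unfold PN
    rw [if_pos (by linarith), if_pos h4]
  · subst h4
    rw [PN4 hk ⟨a0, a1, a2, b0, b1, b2⟩ b1 le_rfl a1]
    exact hk.i45 t _ (dif_mem b0 b1 le_rfl a1 a2) (by simp [dif])

/-- every parameter lies in one of the six regions -/
theorem cases6 (f0 f1 g0 g1 : ℝ) :
    f1 ≤ g0 ∨ (f0 ≤ g0 ∧ g0 ≤ f1 ∧ f1 ≤ g1) ∨ (f0 ≤ g0 ∧ g1 ≤ f1) ∨ (g0 ≤ f0 ∧ f1 ≤ g1) ∨
      (g0 ≤ f0 ∧ f0 ≤ g1 ∧ g1 ≤ f1) ∨ g1 ≤ f0 := by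
  rcases le_total g0 f0 with h1 | h1
  · rcases le_total g1 f0 with h2 | h2
    · tauto
    · rcases le_total g1 f1 with h3 | h3 <;> tauto
  · rcases le_total f1 g0 with h2 | h2
    · tauto
    · rcases le_total g1 f1 with h3 | h3 <;> tauto

/-- the identification of the two sides of `D²` -/
theorem PN_s (hk : KGlue ch) (h : Ok f0 f0 g0 g1) : PN ch t f0 f0 g0 g1 = PN ch t f0 1 g0 g1 := by
  have h' : Ok f0 1 g0 g1 := ⟨h.a0, h.a2, le_rfl, h.b0, h.b1, h.b2⟩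
  obtain ⟨a0, a1, a2, b0, b1, b2⟩ := h
  have hh : Ok f0 f0 g0 g1 := ⟨a0, a1, a2, b0, b1, b2⟩
  rcases le_total g1 f0 with h1 | h1
  · rw [PN5 hk hh h1, PN5 hk h' h1, hk.s55 t _ (dif_mem b0 b1 h1 le_rfl a2) (by simp [dif])]
    congr 1
    simp [dif]
  · rcases le_total g0 f0 with h2 | h2
    · rw [PN3 hk hh h2 h1, PN4 hk h' h2 h1 b2,
        hk.s34 t _ (dif_mem b0 h2 le_rfl h1 b2) (by simp [dif])]
      congr 1
      simp [dif]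
    · rw [PN0 hh h2, PN2 hk h' h2 b2, hk.s02 t _ (dif_mem a0 le_rfl h2 b1 b2) (by simp [dif])]
      congr 1
      simp [dif]

/-- the identification of two edges of the triangles of `T²` -/
theorem PN_c (hk : KGlue ch) (h : Ok f0 f1 0 g1) : PN ch t f0 f1 0 g1 = PN ch (1 - t) f0 f1 g1 1 := by
  have h' : Ok f0 f1 g1 1 := ⟨h.a0, h.a1, h.a2, h.b1, h.b2, le_rfl⟩
  obtain ⟨a0, a1, a2, b0, b1, b2⟩ := h
  have hh : Ok f0 f1 0 g1 := ⟨a0, a1, a2, b0, b1, b2⟩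
  rcases le_total g1 f0 with h1 | h1
  · rw [PN5 hk hh h1, PN3 hk h' h1 a2, hk.c53 t _ (dif_mem b0 b1 h1 a1 a2) (by simp [dif])]
    congr 1
    simp [dif]
  · rcases le_total g1 f1 with h2 | h2
    · rw [PN4 hk hh a0 h1 h2, PN1 hk h' h1 h2 a2,
        hk.c41 t _ (dif_mem b0 a0 h1 h2 a2) (by simp [dif])]
      congr 1
      simp [dif]
    · rw [PN3 hk hh a0 h2, PN0 h' h2, hk.c30 t _ (dif_mem b0 a0 a1 h2 b2) (by simp [dif])]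
      congr 1
      simp [dif]

/-- the identification of the diagonals of the triangles of `T²` -/
theorem PN_m (hk : KGlue ch) (h : Ok f0 f1 g0 g0) :
    PN ch t f0 f1 g0 g0 = PN ch (1 - t) f0 f1 g0 g0 := by
  obtain ⟨a0, a1, a2, b0, b1, b2⟩ := h
  have hh : Ok f0 f1 g0 g0 := ⟨a0, a1, a2, b0, b1, b2⟩
  rcases le_total g0 f0 with h1 | h1
  · rw [PN5 hk hh h1, PN5 hk hh h1, hk.m5 t _ (dif_mem b0 b1 h1 a1 a2) (by simp [dif])]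
  · rcases le_total g0 f1 with h2 | h2
    · rw [PN2 hk hh h1 h2, PN2 hk hh h1 h2, hk.m2 t _ (dif_mem a0 h1 le_rfl h2 a2) (by simp [dif])]
    · rw [PN0 hh h2, PN0 hh h2, hk.m0 t _ (dif_mem a0 a1 h2 b1 b2) (by simp [dif])]

end

end B3
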