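import Pool.Agent.Lib_MP_55d5ef_b3.Top

/-!
# `MP_55d5ef_gt`, level B, step B3: the maps `phi : XN → XC` and `psi : XC → XN`
-/

open Fl49 Topology

namespace B3

/-- a continuous family of increasing bijections `h f : [0,1] → [f,1]`, `0 ≤ f < 1`, with
inverses `k f` -/
structure Rad (h k : ℝ → ℝ → ℝ) : Prop where
  hz : ∀ g, 0 ≤ g → g ≤ 1 → h 0 g = g
  h0 : ∀ f, 0 ≤ f → f < 1 → h f 0 = f
  h1 : ∀ f, 0 ≤ f → f < 1 → h f 1 = 1
  hm : ∀ f g g', 0 ≤ f → f < 1 → 0 ≤ g → g ≤ g' → g' ≤ 1 → h f g ≤ h f g'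
  hk : ∀ f g, 0 ≤ f → f < 1 → f ≤ g → g ≤ 1 → h f (k f g) = g
  kh : ∀ f g, 0 ≤ f → f < 1 → 0 ≤ g → g ≤ 1 → k f (h f g) = g
  km : ∀ f g g', 0 ≤ f → f < 1 → f ≤ g → g ≤ g' → g' ≤ 1 → k f g ≤ k f g'
  hc : ContinuousOn (fun p : ℝ × ℝ => h p.1 p.2) {p | 0 ≤ p.1 ∧ p.1 < 1 ∧ 0 ≤ p.2 ∧ p.2 ≤ 1}
  kc : ContinuousOn (fun p : ℝ × ℝ => k p.1 p.2) {p | 0 ≤ p.1 ∧ p.1 < 1 ∧ p.1 ≤ p.2 ∧ p.2 ≤ 1}

section rad

variable {h k : ℝ → ℝ → ℝ} (hr : Rad h k)

include hr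

theorem Rad.k0 {f : ℝ} (h0 : 0 ≤ f) (h1 : f < 1) : k f f = 0 := by
  have := hr.kh f 0 h0 h1 le_rfl zero_le_one
  rwa [hr.h0 f h0 h1] at this

theorem Rad.k1 {f : ℝ} (h0 : 0 ≤ f) (h1 : f < 1) : k f 1 = 1 := by
  have := hr.kh f 1 h0 h1 zero_le_one le_rfl
  rwa [hr.h1 f h0 h1] at this

theorem Rad.kz {g : ℝ} (h0 : 0 ≤ g) (h1 : g ≤ 1) : k 0 g = g := by
  have := hr.kh 0 g le_rfl zero_lt_one h0 h1
  rwa [hr.hz g h0 h1] at this

theorem Rad.okC {f0 f1 g0 g1 : ℝ} (ho : Ok f0 f1 g0 g1) (hf : f0 < 1) :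
    OkC f0 f1 (h f0 g0) (h f0 g1) := by
  obtain ⟨a0, a1, a2, b0, b1, b2⟩ := ho
  refine ⟨a0, a1, a2, ?_, hr.hm f0 g0 g1 a0 hf b0 b1 b2, ?_⟩
  · have := hr.hm f0 0 g0 a0 hf le_rfl b0 (b1.trans b2)
    rwa [hr.h0 f0 a0 hf] at this
  · have := hr.hm f0 g1 1 a0 hf (b0.trans b1) b2 le_rfl
    rwa [hr.h1 f0 a0 hf] at this

theorem Rad.ok {f0 f1 g0 g1 : ℝ} (ho : OkC f0 f1 g0 g1) (hf : f0 < 1) :
    Ok f0 f1 (k f0 g0) (k f0 g1) := by
  obtain ⟨a0, a1, a2, b0, b1, b2⟩ := ho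
  refine ⟨a0, a1, a2, ?_, hr.km f0 g0 g1 a0 hf b0 b1 b2, ?_⟩
  · have := hr.km f0 f0 g0 a0 hf le_rfl b0 (b1.trans b2)
    rwa [hr.k0 a0 hf] at this
  · have := hr.km f0 g1 1 a0 hf (b0.trans b1) b2 le_rfl
    rwa [hr.k1 a0 hf] at this

end rad

variable {R : Type} {numR : R → Fin 5 → ℕ} {odR : R → Fin 5 → List (Fin 5)}

/-- the cone point -/
noncomputable def apx (numR : R → Fin 5 → ℕ) (odR : R → Fin 5 → List (Fin 5)) : XC numR odR :=
  chC numR odR 0 0 e0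

/-- a point of the core -/
noncomputable def cpt (numR : R → Fin 5 → ℕ) (odR : R → Fin 5 → List (Fin 5)) : XN numR odR :=
  chN numR odR 0 0 e0

/-- `phi` in parameters -/
noncomputable def gphi (numR : R → Fin 5 → ℕ) (odR : R → Fin 5 → List (Fin 5))
    (h : ℝ → ℝ → ℝ) (t : Fin 2) (f0 f1 g0 g1 : ℝ) : XC numR odR :=
  if f0 < 1 then PC (chC numR odR) t f0 f1 (h f0 g0) (h f0 g1) else apx numR odR

/-- `psi` in parameters -/
noncomputable def gpsi (numR : R → Fin 5 → ℕ) (odR : R → Fin 5 → List (Fin 5))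
    (k : ℝ → ℝ → ℝ) (t : Fin 2) (f0 f1 g0 g1 : ℝ) : XN numR odR :=
  if f0 < 1 then PN (chN numR odR) t f0 f1 (k f0 g0) (k f0 g1) else cpt numR odR

variable {h k : ℝ → ℝ → ℝ}

theorem gphi_glue (hr : Rad h k) : PGlue (gphi numR odR h) := by
  refine ⟨?_, ?_, ?_⟩
  · intro t f0 g0 g1 ho
    unfold gphi
    split_ifs with hf
    · exact PC_s chC_glue (hr.okC ho hf)
    · rfl
  · intro t f0 f1 g1 ho
    unfold gphi
    split_ifs with hf
    · have h1 := hr.okC ho hf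
      rw [hr.h0 f0 ho.a0 hf] at h1 ⊢
      rw [hr.h1 f0 ho.a0 hf]
      exact PC_c chC_glue h1
    · rfl
  · intro t f0 f1 g0 ho
    unfold gphi
    split_ifs with hf
    · exact PC_m chC_glue (hr.okC ho hf)
    · rfl

theorem gpsi_glue (hr : Rad h k) : PGlueC (gpsi numR odR k) := by
  refine ⟨?_, ?_, ?_⟩
  · intro t f0 g0 g1 ho
    unfold gpsi
    split_ifs with hf
    · exact PN_s chN_glue (hr.ok ho hf)
    · rfl
  · intro t f0 f1 g1 ho
    unfold gpsi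
    split_ifs with hf
    · have h1 := hr.ok ho hf
      rw [hr.k0 ho.a0 hf] at h1 ⊢
      rw [hr.k1 ho.a0 hf]
      exact PN_c chN_glue h1
    · rfl
  · intro t f0 f1 g0 ho
    unfold gpsi
    split_ifs with hf
    · exact PN_m chN_glue (hr.ok ho hf)
    · rfl

/-- the coordinates on a boundary facet of a record of `R` -/
theorem bd_list (hR : ROk numR odR) (r : R) (v : Fin 5) {x : Fin 5 → ℝ} (hx : x ∈ Sx)
    (h0 : x v = 0) : ∃ a b c d : ℝ, (odR r v).map x = [a, b, c, d] ∧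
      (![0, a, b, c, d] : Fin 5 → ℝ) ∈ Sx := by
  have hp := (hR.od r v).map x
  have hlen : ((odR r v).map x).length = 4 := by
    rw [hp.length_eq]
    fin_cases v <;> rfl
  have hsum : ((odR r v).map x).sum = 1 := by
    rw [hp.sum_eq]
    have h1 := hx.2
    fin_cases v <;> simp [od5] <;> simp at h0 <;> linarith
  have hnn : ∀ y ∈ (odR r v).map x, 0 ≤ y := by
    intro y hy
    obtain ⟨i, _, rfl⟩ := List.mem_map.mp hy
    exact hx.1 i
  generalize (odR r v).map x = l at hlen hsum hnn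
  match l, hlen, hsum, hnn with
  | [a, b, c, d], _, hsum, hnn =>
    refine ⟨a, b, c, d, rfl, ?_, ?_⟩
    · intro i
      fin_cases i
      · simp
      · exact hnn a (by simp)
      · exact hnn b (by simp)
      · exact hnn c (by simp)
      · exact hnn d (by simp)
    · simp at hsum
      simp
      linarith

theorem gphi_bd (hr : Rad h k) (t : Fin 2) (b : Fin 3) {y : Fin 5 → ℝ} (hy : y ∈ Sx)
    (h0 : y 0 = 0) : ev3 (gphi numR odR h t) b y = chC numR odR t b y := by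
  have ho := prmC_ok b hy
  have hf : (prmC b y).1 = 0 := by rw [prmC_fst, h0]
  rw [← ev3_PC chC_glue t b hy, ev3_prm, ev3_prm]
  unfold gphi
  rw [hf, if_pos zero_lt_one, hr.hz _ (by have := ho.b0; rwa [hf] at this) (ho.b1.trans ho.b2),
    hr.hz _ (by have := ho.b0.trans ho.b1; rwa [hf] at this) ho.b2]

theorem gpsi_bd (hr : Rad h k) (t : Fin 2) (b : Fin 3) {y : Fin 5 → ℝ} (hy : y ∈ Sx)
    (h0 : y 0 = 0) : ev3 (gpsi numR odR k t) b y = ev3 (PN (chN numR odR) t) b y := by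
  have ho := prmC_ok b hy
  have hf : (prmC b y).1 = 0 := by rw [prmC_fst, h0]
  rw [ev3_prm, ev3_prm]
  unfold gpsi
  rw [hf, if_pos zero_lt_one, hr.kz (by have := ho.b0; rwa [hf] at this) (ho.b1.trans ho.b2),
    hr.kz (by have := ho.b0.trans ho.b1; rwa [hf] at this) ho.b2]

theorem ev6_ev3 {Y : Type*} (g : ℝ → ℝ → ℝ → ℝ → Y) (b : Fin 3) (x : Fin 5 → ℝ) :
    ev6 g (Fin.castLE (by norm_num) b) x = ev3 g b x := by
  fin_cases b <;> rfl

theorem LN_phi (hR : ROk numR odR) (hr : Rad h k) :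
    LN numR odR (fun r x => cp (numC numR) (odC odR) (Sum.inl r) x)
      (fun t k x => ev6 (gphi numR odR h t) k x) := by
  refine ⟨?_, ?_, (gphi_glue hr).kglue⟩
  · intro r s v w x hx y hy hn hxv hyw ho
    exact cp_glue (i := Sum.inl r) (j := Sum.inl s) hx hy hn hxv hyw ho
  · intro r v hn x hx h0
    obtain ⟨a, b, c, d, hl, hm⟩ := bd_list hR r v hx h0
    have key : ∀ (t : Fin 2) (j : Fin 3), numR r v = numS t j 0 →
        cp (numC numR) (odC odR) (Sum.inl r) x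
          = ev3 (gphi numR odR h t) j ![0, a, b, c, d] := by
      intro t j hj
      rw [gphi_bd hr t j hm rfl]
      exact cp_glue (i := Sum.inl r) (j := Sum.inr (t, j)) hx hm hj h0 rfl hl
    rw [hl]
    generalize numR r v = n at hn key
    interval_cases n
    · exact key 0 0 rfl
    · exact key 0 1 rfl
    · exact key 0 2 rfl
    · exact key 1 0 rfl
    · exact key 1 1 rfl
    · exact key 1 2 rfl

theorem LC_psi (hR : ROk numR odR) (hr : Rad h k) :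
    LC numR odR (fun r x => cp (numN numR) (odN odR) (Sum.inl r) x)
      (fun t j x => ev3 (gpsi numR odR k t) j x) := by
  refine ⟨?_, ?_, (gpsi_glue hr).sglue⟩
  · intro r s v w x hx y hy hn hxv hyw ho
    exact cp_glue (i := Sum.inl r) (j := Sum.inl s) hx hy hn hxv hyw ho
  · intro r v hn x hx h0
    obtain ⟨a, b, c, d, hl, hm⟩ := bd_list hR r v hx h0
    have key : ∀ (t : Fin 2) (j : Fin 3), numR r v = numK t (Fin.castLE (by norm_num) j) 0 →
        cp (numN numR) (odN odR) (Sum.inl r) x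
          = ev3 (gpsi numR odR k t) j ![0, a, b, c, d] := by
      intro t j hj
      rw [gpsi_bd hr t j hm rfl, ← ev6_ev3, ev6_PN chN_glue t _ hm]
      exact cp_glue (i := Sum.inl r) (j := Sum.inr (t, _)) hx hm hj h0 rfl hl
    rw [hl]
    generalize numR r v = n at hn key
    interval_cases n
    · exact key 0 0 rfl
    · exact key 0 1 rfl
    · exact key 0 2 rfl
    · exact key 1 0 rfl
    · exact key 1 1 rfl
    · exact key 1 2 rfl

/-- the map `phi : XN → XC` -/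
noncomputable def phi (hR : ROk numR odR) (hr : Rad h k) : XN numR odR → XC numR odR :=
  liftN hR (LN_phi hR hr)

/-- the map `psi : XC → XN` -/
noncomputable def psi (hR : ROk numR odR) (hr : Rad h k) : XC numR odR → XN numR odR :=
  liftC hR (LC_psi hR hr)

theorem liftN_PN {Y : Type*} {FR : R → (Fin 5 → ℝ) → Y} {g : Fin 2 → ℝ → ℝ → ℝ → ℝ → Y}
    (hR : ROk numR odR) (hl : LN numR odR FR (fun t k x => ev6 (g t) k x)) (t : Fin 2)
    {f0 f1 g0 g1 : ℝ} (ho : Ok f0 f1 g0 g1) :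
    liftN hR hl (PN (chN numR odR) t f0 f1 g0 g1) = g t f0 f1 g0 g1 := by
  obtain ⟨a0, a1, a2, b0, b1, b2⟩ := ho
  have ho : Ok f0 f1 g0 g1 := ⟨a0, a1, a2, b0, b1, b2⟩
  rcases cases6 f0 f1 g0 g1 with c | c | c | c | c | c
  · rw [PN0 ho c, liftN_inr _ _ _ _ (dif_mem a0 a1 c b1 b2)]
    simp [ev6, dif]
  · rw [PN1 chN_glue ho c.1 c.2.1 c.2.2, liftN_inr _ _ _ _ (dif_mem a0 c.1 c.2.1 c.2.2 b2)]
    simp [ev6, dif]
  · rw [PN2 chN_glue ho c.1 c.2, liftN_inr _ _ _ _ (dif_mem a0 c.1 b1 c.2 a2)]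
    simp [ev6, dif]
  · rw [PN3 chN_glue ho c.1 c.2, liftN_inr _ _ _ _ (dif_mem b0 c.1 a1 c.2 b2)]
    simp [ev6, dif]
  · rw [PN4 chN_glue ho c.1 c.2.1 c.2.2, liftN_inr _ _ _ _ (dif_mem b0 c.1 c.2.1 c.2.2 a2)]
    simp [ev6, dif]
  · rw [PN5 chN_glue ho c, liftN_inr _ _ _ _ (dif_mem b0 b1 c a1 a2)]
    simp [ev6, dif]

theorem liftC_PC {Y : Type*} {FR : R → (Fin 5 → ℝ) → Y} {g : Fin 2 → ℝ → ℝ → ℝ → ℝ → Y}
    (hR : ROk numR odR) (hl : LC numR odR FR (fun t k x => ev3 (g t) k x)) (t : Fin 2)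
    {f0 f1 g0 g1 : ℝ} (ho : OkC f0 f1 g0 g1) :
    liftC hR hl (PC (chC numR odR) t f0 f1 g0 g1) = g t f0 f1 g0 g1 := by
  obtain ⟨a0, a1, a2, b0, b1, b2⟩ := ho
  have ho : OkC f0 f1 g0 g1 := ⟨a0, a1, a2, b0, b1, b2⟩
  rcases cases3 f1 g0 g1 with c | c | c
  · rw [PC0 c, liftC_inr _ _ _ _ (dif_mem a0 a1 c b1 b2)]
    simp [ev3, dif]
  · rw [PC1 chC_glue ho c.1 c.2, liftC_inr _ _ _ _ (dif_mem a0 b0 c.1 c.2 b2)]
    simp [ev3, dif]
  · rw [PC2 chC_glue ho c, liftC_inr _ _ _ _ (dif_mem a0 b0 b1 c a2)]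
    simp [ev3, dif]

/-! ### the mass of the core / of the cone point -/

theorem LN_m (numR : R → Fin 5 → ℕ) (odR : R → Fin 5 → List (Fin 5)) (hR : ROk numR odR) :
    LN numR odR (fun _ _ => (0 : ℝ)) (fun _ k x => ev6 (fun f0 _ _ _ => f0) k x) := by
  refine ⟨fun _ _ _ _ _ _ _ _ _ _ _ _ => rfl, ?_, ?_⟩
  · intro r v hn x hx h0
    obtain ⟨a, b, c, d, hl, _⟩ := bd_list hR r v hx h0
    rw [hl]
    generalize numR r v = n at hn
    interval_cases n <;> rfl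
  · exact (⟨fun _ _ _ _ _ => rfl, fun _ _ _ _ _ => rfl, fun _ _ _ _ _ => rfl⟩ :
      PGlue fun _ f0 _ _ _ => f0).kglue

theorem LC_m (numR : R → Fin 5 → ℕ) (odR : R → Fin 5 → List (Fin 5)) (hR : ROk numR odR) :
    LC numR odR (fun _ _ => (0 : ℝ)) (fun _ k x => ev3 (fun f0 _ _ _ => f0) k x) := by
  refine ⟨fun _ _ _ _ _ _ _ _ _ _ _ _ => rfl, ?_, ?_⟩
  · intro r v hn x hx h0
    obtain ⟨a, b, c, d, hl, _⟩ := bd_list hR r v hx h0
    rw [hl]
    generalize numR r v = n at hn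
    interval_cases n <;> rfl
  · exact (⟨fun _ _ _ _ _ => rfl, fun _ _ _ _ _ => rfl, fun _ _ _ _ _ => rfl⟩ :
      PGlueC fun _ f0 _ _ _ => f0).sglue

/-- the mass of the vertices of the core (`0` outside `D² × T²`) -/
noncomputable def mN (hR : ROk numR odR) : XN numR odR → ℝ := liftN hR (LN_m numR odR hR)

/-- the mass of the cone point -/
noncomputable def mC (hR : ROk numR odR) : XC numR odR → ℝ := liftC hR (LC_m numR odR hR)

/-- the core torus -/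
def core (hR : ROk numR odR) : Set (XN numR odR) := {p | mN hR p = 1}

theorem mN_inl (hR : ROk numR odR) (r : R) {x : Fin 5 → ℝ} (hx : x ∈ Sx) :
    mN hR (cp _ _ (Sum.inl r) x) = 0 := liftN_inl hR _ r hx

theorem mN_inr (hR : ROk numR odR) (t : Fin 2) (k : Fin 6) {x : Fin 5 → ℝ} (hx : x ∈ Sx) :
    mN hR (chN numR odR t k x) = (prm k x).1 := by
  unfold mN
  rw [liftN_inr hR _ t k hx, ev6_prm]

theorem mC_inl (hR : ROk numR odR) (r : R) {x : Fin 5 → ℝ} (hx : x ∈ Sx) :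
    mC hR (cp _ _ (Sum.inl r) x) = 0 := liftC_inl hR _ r hx

theorem mC_inr (hR : ROk numR odR) (t : Fin 2) (k : Fin 3) {x : Fin 5 → ℝ} (hx : x ∈ Sx) :
    mC hR (chC numR odR t k x) = (prmC k x).1 := by
  unfold mC
  rw [liftC_inr hR _ t k hx, ev3_prm]

/-- all cone points agree -/
theorem chC_e0 (t : Fin 2) (j : Fin 3) : chC numR odR t j e0 = apx numR odR := by
  have h1 : ∀ t : Fin 2, ∀ j : Fin 3, chC numR odR t j e0 = PC (chC numR odR) t 1 1 1 1 := by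
    intro t j
    rw [← ev3_PC chC_glue t j e0_mem]
    fin_cases j <;> simp [ev3, e0]
  have h2 : PC (chC numR odR) 0 1 1 1 1 = PC (chC numR odR) 1 1 1 1 1 :=
    PC_m chC_glue (t := 0) ⟨by norm_num, le_rfl, le_rfl, le_rfl, le_rfl, le_rfl⟩
  unfold apx
  rw [h1, h1]
  fin_cases t
  · rfl
  · exact h2.symm

theorem mem_e0 {x : Fin 5 → ℝ} (hx : x ∈ Sx) (h : x 0 = 1) : x = e0 := by
  obtain ⟨hp, hs⟩ := hx
  have p1 := hp 1; have p2 := hp 2; have p3 := hp 3; have p4 := hp 4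
  funext i
  fin_cases i <;> simp [e0] <;> linarith

/-- the cone point is the only point of mass 1 -/
theorem mC_eq_one (hR : ROk numR odR) (q : XC numR odR) : mC hR q = 1 ↔ q = apx numR odR := by
  constructor
  · intro hq
    obtain ⟨i, x, hx, rfl⟩ := cp_surj q
    rcases i with r | ⟨t, j⟩
    · rw [mC_inl hR r hx] at hq
      exact absurd hq (by norm_num)
    · have h1 := mC_inr hR t j hx
      change mC hR (chC numR odR t j x) = 1 at hq
      rw [h1, prmC_fst] at hq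
      rw [mem_e0 hx hq]
      exact chC_e0 t j
  · rintro rfl
    have := mC_inr (numR := numR) (odR := odR) hR 0 0 e0_mem
    unfold apx
    rw [this]
    simp [prmC, ev3, e0]

end B3
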