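import Pool.Agent.Lib_MP_55d5ef_b3.Par

/-!
# `MP_55d5ef_gt`, level B, step B3: the cone over `S¹ × T²`, parameter functions

The three simplices of the cone over (edge) × (triangle) are the words `RRCC, RCRC, RCCR`
(numbers 0, 1, 2); now `f₀` is the mass of the cone point and `f₀ ≤ g₀`.
-/

namespace B3

variable {X Y : Type*}

/-- gluing data of the cone over `S¹ × T²` -/
structure SGlue (ch : Fin 2 → Fin 3 → (Fin 5 → ℝ) → X) : Prop where
  i01 : ∀ t, ∀ x ∈ Sx, x 2 = 0 → ch t 0 x = ch t 1 x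
  i12 : ∀ t, ∀ x ∈ Sx, x 3 = 0 → ch t 1 x = ch t 2 x
  s02 : ∀ t, ∀ x ∈ Sx, x 1 = 0 → ch t 0 x = ch t 2 ![x 0, x 2, x 3, x 4, 0]
  c10 : ∀ t, ∀ x ∈ Sx, x 1 = 0 → ch t 1 x = ch (1 - t) 0 ![x 0, x 2, x 3, x 4, 0]
  c21 : ∀ t, ∀ x ∈ Sx, x 1 = 0 → ch t 2 x = ch (1 - t) 1 ![x 0, x 2, x 3, x 4, 0]
  m0 : ∀ t, ∀ x ∈ Sx, x 3 = 0 → ch t 0 x = ch (1 - t) 0 x
  m2 : ∀ t, ∀ x ∈ Sx, x 2 = 0 → ch t 2 x = ch (1 - t) 2 x

/-- parameters in the domain of the cone -/
structure OkC (f0 f1 g0 g1 : ℝ) : Prop where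
  a0 : 0 ≤ f0
  a1 : f0 ≤ f1
  a2 : f1 ≤ 1
  b0 : f0 ≤ g0
  b1 : g0 ≤ g1
  b2 : g1 ≤ 1

/-- the point of the cone with parameters `(f₀, f₁, g₀, g₁)` -/
noncomputable def PC (ch : Fin 2 → Fin 3 → (Fin 5 → ℝ) → X) (t : Fin 2) (f0 f1 g0 g1 : ℝ) : X :=
  if g0 < f1 then
    (if g1 < f1 then ch t 2 (dif f0 g0 g1 f1) else ch t 1 (dif f0 g0 f1 g1))
  else ch t 0 (dif f0 f1 g0 g1)

section

variable {ch : Fin 2 → Fin 3 → (Fin 5 → ℝ) → X} {t : Fin 2} {f0 f1 g0 g1 : ℝ}

theorem PC0 (h1 : f1 ≤ g0) : PC ch t f0 f1 g0 g1 = ch t 0 (dif f0 f1 g0 g1) := by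
  unfold PC
  rw [if_neg (by linarith)]

theorem PC1 (hk : SGlue ch) (h : OkC f0 f1 g0 g1) (h2 : g0 ≤ f1) (h3 : f1 ≤ g1) :
    PC ch t f0 f1 g0 g1 = ch t 1 (dif f0 g0 f1 g1) := by
  obtain ⟨a0, a1, a2, b0, b1, b2⟩ := h
  rcases lt_or_eq_of_le h2 with h4 | h4
  · unfold PC
    rw [if_pos h4, if_neg (by linarith)]
  · subst h4
    rw [PC0 le_rfl]
    exact hk.i01 t _ (dif_mem a0 a1 le_rfl b1 b2) (by simp [dif])

theorem PC2 (hk : SGlue ch) (h : OkC f0 f1 g0 g1) (h2 : g1 ≤ f1) :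
    PC ch t f0 f1 g0 g1 = ch t 2 (dif f0 g0 g1 f1) := by
  obtain ⟨a0, a1, a2, b0, b1, b2⟩ := h
  rcases lt_or_eq_of_le h2 with h4 | h4
  · unfold PC
    rw [if_pos (by linarith), if_pos h4]
  · subst h4
    rw [PC1 hk ⟨a0, a1, a2, b0, b1, b2⟩ b1 le_rfl]
    exact hk.i12 t _ (dif_mem a0 b0 b1 le_rfl b2) (by simp [dif])

theorem cases3 (f1 g0 g1 : ℝ) : f1 ≤ g0 ∨ (g0 ≤ f1 ∧ f1 ≤ g1) ∨ g1 ≤ f1 := by
  rcases le_total f1 g0 with h2 | h2
  · tauto
  · rcases le_total g1 f1 with h3 | h3 <;> tauto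

theorem PC_s (hk : SGlue ch) (h : OkC f0 f0 g0 g1) : PC ch t f0 f0 g0 g1 = PC ch t f0 1 g0 g1 := by
  have h' : OkC f0 1 g0 g1 := ⟨h.a0, h.a2, le_rfl, h.b0, h.b1, h.b2⟩
  obtain ⟨a0, a1, a2, b0, b1, b2⟩ := h
  rw [PC0 b0, PC2 hk h' b2, hk.s02 t _ (dif_mem a0 le_rfl b0 b1 b2) (by simp [dif])]
  congr 1
  simp [dif]

theorem PC_c (hk : SGlue ch) (h : OkC f0 f1 f0 g1) :
    PC ch t f0 f1 f0 g1 = PC ch (1 - t) f0 f1 g1 1 := by
  have h' : OkC f0 f1 g1 1 := ⟨h.a0, h.a1, h.a2, h.b1, h.b2, le_rfl⟩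
  obtain ⟨a0, a1, a2, b0, b1, b2⟩ := h
  have hh : OkC f0 f1 f0 g1 := ⟨a0, a1, a2, b0, b1, b2⟩
  rcases le_total g1 f1 with h2 | h2
  · rw [PC2 hk hh h2, PC1 hk h' h2 a2, hk.c21 t _ (dif_mem a0 b0 b1 h2 a2) (by simp [dif])]
    congr 1
    simp [dif]
  · rw [PC1 hk hh a1 h2, PC0 h2, hk.c10 t _ (dif_mem a0 b0 a1 h2 b2) (by simp [dif])]
    congr 1
    simp [dif]

theorem PC_m (hk : SGlue ch) (h : OkC f0 f1 g0 g0) :
    PC ch t f0 f1 g0 g0 = PC ch (1 - t) f0 f1 g0 g0 := by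
  obtain ⟨a0, a1, a2, b0, b1, b2⟩ := h
  have hh : OkC f0 f1 g0 g0 := ⟨a0, a1, a2, b0, b1, b2⟩
  rcases le_total g0 f1 with h2 | h2
  · rw [PC2 hk hh h2, PC2 hk hh h2, hk.m2 t _ (dif_mem a0 b0 le_rfl h2 a2) (by simp [dif])]
  · rw [PC0 h2, PC0 h2, hk.m0 t _ (dif_mem a0 a1 h2 b1 b2) (by simp [dif])]

end

/-! ### functions of the parameters -/

/-- a function of the parameters of `D² × T²` respecting the identifications -/
structure PGlue (g : Fin 2 → ℝ → ℝ → ℝ → ℝ → Y) : Prop where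
  s : ∀ t f0 g0 g1, Ok f0 f0 g0 g1 → g t f0 f0 g0 g1 = g t f0 1 g0 g1
  c : ∀ t f0 f1 g1, Ok f0 f1 0 g1 → g t f0 f1 0 g1 = g (1 - t) f0 f1 g1 1
  m : ∀ t f0 f1 g0, Ok f0 f1 g0 g0 → g t f0 f1 g0 g0 = g (1 - t) f0 f1 g0 g0

/-- a function of the parameters of the cone respecting the identifications -/
structure PGlueC (g : Fin 2 → ℝ → ℝ → ℝ → ℝ → Y) : Prop where
  s : ∀ t f0 g0 g1, OkC f0 f0 g0 g1 → g t f0 f0 g0 g1 = g t f0 1 g0 g1
  c : ∀ t f0 f1 g1, OkC f0 f1 f0 g1 → g t f0 f1 f0 g1 = g (1 - t) f0 f1 g1 1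
  m : ∀ t f0 f1 g0, OkC f0 f1 g0 g0 → g t f0 f1 g0 g0 = g (1 - t) f0 f1 g0 g0

theorem PN_PGlue {ch : Fin 2 → Fin 6 → (Fin 5 → ℝ) → X} (hk : KGlue ch) : PGlue (PN ch) where
  s := fun _ _ _ _ h => PN_s hk h
  c := fun _ _ _ _ h => PN_c hk h
  m := fun _ _ _ _ h => PN_m hk h

theorem PC_PGlueC {ch : Fin 2 → Fin 3 → (Fin 5 → ℝ) → X} (hk : SGlue ch) : PGlueC (PC ch) where
  s := fun _ _ _ _ h => PC_s hk h
  c := fun _ _ _ _ h => PC_c hk h
  m := fun _ _ _ _ h => PC_m hk h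

/-- evaluate a parameter function at the point with coordinates `x` in the simplex `k` -/
def ev6 (g : ℝ → ℝ → ℝ → ℝ → Y) (k : Fin 6) (x : Fin 5 → ℝ) : Y :=
  match k with
  | 0 => g (x 0) (x 0 + x 1) (x 0 + x 1 + x 2) (x 0 + x 1 + x 2 + x 3)
  | 1 => g (x 0) (x 0 + x 1 + x 2) (x 0 + x 1) (x 0 + x 1 + x 2 + x 3)
  | 2 => g (x 0) (x 0 + x 1 + x 2 + x 3) (x 0 + x 1) (x 0 + x 1 + x 2)
  | 3 => g (x 0 + x 1) (x 0 + x 1 + x 2) (x 0) (x 0 + x 1 + x 2 + x 3)
  | 4 => g (x 0 + x 1) (x 0 + x 1 + x 2 + x 3) (x 0) (x 0 + x 1 + x 2)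
  | 5 => g (x 0 + x 1 + x 2) (x 0 + x 1 + x 2 + x 3) (x 0) (x 0 + x 1)

/-- the same for the cone -/
def ev3 (g : ℝ → ℝ → ℝ → ℝ → Y) (k : Fin 3) (x : Fin 5 → ℝ) : Y :=
  match k with
  | 0 => g (x 0) (x 0 + x 1) (x 0 + x 1 + x 2) (x 0 + x 1 + x 2 + x 3)
  | 1 => g (x 0) (x 0 + x 1 + x 2) (x 0 + x 1) (x 0 + x 1 + x 2 + x 3)
  | 2 => g (x 0) (x 0 + x 1 + x 2 + x 3) (x 0 + x 1) (x 0 + x 1 + x 2)

theorem ev6_PN {ch : Fin 2 → Fin 6 → (Fin 5 → ℝ) → X} (hk : KGlue ch) (t : Fin 2) (k : Fin 6)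
    {x : Fin 5 → ℝ} (hx : x ∈ Sx) : ev6 (PN ch t) k x = ch t k x := by
  have h0 := hx.1 0
  have h1 := hx.1 1
  have h2 := hx.1 2
  have h3 := hx.1 3
  have h4 := hx.1 4
  have h5 := hx.2
  conv_rhs => rw [← dif_of_mem hx]
  fin_cases k
  · exact PN0 ⟨by linarith, by linarith, by linarith, by linarith, by linarith, by linarith⟩
      (by linarith)
  · exact PN1 hk ⟨by linarith, by linarith, by linarith, by linarith, by linarith, by linarith⟩
      (by linarith) (by linarith) (by linarith)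
  · exact PN2 hk ⟨by linarith, by linarith, by linarith, by linarith, by linarith, by linarith⟩
      (by linarith) (by linarith)
  · exact PN3 hk ⟨by linarith, by linarith, by linarith, by linarith, by linarith, by linarith⟩
      (by linarith) (by linarith)
  · exact PN4 hk ⟨by linarith, by linarith, by linarith, by linarith, by linarith, by linarith⟩
      (by linarith) (by linarith) (by linarith)
  · exact PN5 hk ⟨by linarith, by linarith, by linarith, by linarith, by linarith, by linarith⟩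
      (by linarith)

theorem ev3_PC {ch : Fin 2 → Fin 3 → (Fin 5 → ℝ) → X} (hk : SGlue ch) (t : Fin 2) (k : Fin 3)
    {x : Fin 5 → ℝ} (hx : x ∈ Sx) : ev3 (PC ch t) k x = ch t k x := by
  have h0 := hx.1 0
  have h1 := hx.1 1
  have h2 := hx.1 2
  have h3 := hx.1 3
  have h4 := hx.1 4
  have h5 := hx.2
  conv_rhs => rw [← dif_of_mem hx]
  fin_cases k
  · exact PC0 (by linarith)
  · exact PC1 hk ⟨by linarith, by linarith, by linarith, by linarith, by linarith, by linarith⟩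
      (by linarith) (by linarith)
  · exact PC2 hk ⟨by linarith, by linarith, by linarith, by linarith, by linarith, by linarith⟩
      (by linarith)

/-- a parameter function gives compatible functions on the 12 simplices -/
theorem PGlue.kglue {g : Fin 2 → ℝ → ℝ → ℝ → ℝ → Y} (h : PGlue g) :
    KGlue (fun t k x => ev6 (g t) k x) := by
  refine ⟨?_, ?_, ?_, ?_, ?_, ?_, ?_, ?_, ?_, ?_, ?_, ?_, ?_, ?_, ?_⟩
  · intro t x hx h0; simp [ev6, h0]
  · intro t x hx h0; simp [ev6, h0]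
  · intro t x hx h0; simp [ev6, h0]
  · intro t x hx h0; simp [ev6, h0]
  · intro t x hx h0; simp [ev6, h0]
  · intro t x hx h0; simp [ev6, h0]
  · intro t x hx h0
    obtain ⟨hp, hs⟩ := hx
    have p0 := hp 0; have p1 := hp 1; have p2 := hp 2; have p3 := hp 3; have p4 := hp 4
    have := h.s t (x 0) (x 0 + x 2) (x 0 + x 2 + x 3)
      ⟨by linarith, by linarith, by linarith, by linarith, by linarith, by linarith⟩
    simp only [ev6, h0, add_zero]
    rw [this]
    congr 1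
    simp
    linarith
  · intro t x hx h0
    obtain ⟨hp, hs⟩ := hx
    have p0 := hp 0; have p1 := hp 1; have p2 := hp 2; have p3 := hp 3; have p4 := hp 4
    have := h.s t (x 0 + x 1) (x 0) (x 0 + x 1 + x 3)
      ⟨by linarith, by linarith, by linarith, by linarith, by linarith, by linarith⟩
    simp only [ev6, h0, add_zero]
    rw [this]
    congr 1
    simp
    linarith
  · intro t x hx h0
    obtain ⟨hp, hs⟩ := hx
    have p0 := hp 0; have p1 := hp 1; have p2 := hp 2; have p3 := hp 3; have p4 := hp 4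
    have := h.s t (x 0 + x 1 + x 2) (x 0) (x 0 + x 1)
      ⟨by linarith, by linarith, by linarith, by linarith, by linarith, by linarith⟩
    simp only [ev6, h0, add_zero]
    rw [this]
    congr 1
    simp
    linarith
  · intro t x hx h0
    obtain ⟨hp, hs⟩ := hx
    have p0 := hp 0; have p1 := hp 1; have p2 := hp 2; have p3 := hp 3; have p4 := hp 4
    have := h.c t (x 1) (x 1 + x 2) (x 1 + x 2 + x 3)
      ⟨by linarith, by linarith, by linarith, by linarith, by linarith, by linarith⟩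
    simp only [ev6, h0, zero_add]
    rw [this]
    congr 1
    simp
    linarith
  · intro t x hx h0
    obtain ⟨hp, hs⟩ := hx
    have p0 := hp 0; have p1 := hp 1; have p2 := hp 2; have p3 := hp 3; have p4 := hp 4
    have := h.c t (x 1) (x 1 + x 2 + x 3) (x 1 + x 2)
      ⟨by linarith, by linarith, by linarith, by linarith, by linarith, by linarith⟩
    simp only [ev6, h0, zero_add]
    rw [this]
    congr 1
    simp
    linarith
  · intro t x hx h0
    obtain ⟨hp, hs⟩ := hx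
    have p0 := hp 0; have p1 := hp 1; have p2 := hp 2; have p3 := hp 3; have p4 := hp 4
    have := h.c t (x 1 + x 2) (x 1 + x 2 + x 3) (x 1)
      ⟨by linarith, by linarith, by linarith, by linarith, by linarith, by linarith⟩
    simp only [ev6, h0, zero_add]
    rw [this]
    congr 1
    simp
    linarith
  · intro t x hx h0
    obtain ⟨hp, hs⟩ := hx
    have p0 := hp 0; have p1 := hp 1; have p2 := hp 2; have p3 := hp 3; have p4 := hp 4
    have := h.m t (x 0) (x 0 + x 1) (x 0 + x 1 + x 2)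
      ⟨by linarith, by linarith, by linarith, by linarith, by linarith, by linarith⟩
    simp only [ev6, h0, add_zero]
    exact this
  · intro t x hx h0
    obtain ⟨hp, hs⟩ := hx
    have p0 := hp 0; have p1 := hp 1; have p2 := hp 2; have p3 := hp 3; have p4 := hp 4
    have := h.m t (x 0) (x 0 + x 1 + x 3) (x 0 + x 1)
      ⟨by linarith, by linarith, by linarith, by linarith, by linarith, by linarith⟩
    simp only [ev6, h0, add_zero]
    exact this
  · intro t x hx h0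
    obtain ⟨hp, hs⟩ := hx
    have p0 := hp 0; have p1 := hp 1; have p2 := hp 2; have p3 := hp 3; have p4 := hp 4
    have := h.m t (x 0 + x 2) (x 0 + x 2 + x 3) (x 0)
      ⟨by linarith, by linarith, by linarith, by linarith, by linarith, by linarith⟩
    simp only [ev6, h0, add_zero]
    exact this

/-- a parameter function gives compatible functions on the 6 simplices of the cone -/
theorem PGlueC.sglue {g : Fin 2 → ℝ → ℝ → ℝ → ℝ → Y} (h : PGlueC g) :
    SGlue (fun t k x => ev3 (g t) k x) := by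
  refine ⟨?_, ?_, ?_, ?_, ?_, ?_, ?_⟩
  · intro t x hx h0; simp [ev3, h0]
  · intro t x hx h0; simp [ev3, h0]
  · intro t x hx h0
    obtain ⟨hp, hs⟩ := hx
    have p0 := hp 0; have p1 := hp 1; have p2 := hp 2; have p3 := hp 3; have p4 := hp 4
    have := h.s t (x 0) (x 0 + x 2) (x 0 + x 2 + x 3)
      ⟨by linarith, by linarith, by linarith, by linarith, by linarith, by linarith⟩
    simp only [ev3, h0, add_zero]
    rw [this]
    congr 1
    simp
    linarith
  · intro t x hx h0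
    obtain ⟨hp, hs⟩ := hx
    have p0 := hp 0; have p1 := hp 1; have p2 := hp 2; have p3 := hp 3; have p4 := hp 4
    have := h.c t (x 0) (x 0 + x 2) (x 0 + x 2 + x 3)
      ⟨by linarith, by linarith, by linarith, by linarith, by linarith, by linarith⟩
    simp only [ev3, h0, add_zero]
    rw [this]
    congr 1
    simp
    linarith
  · intro t x hx h0
    obtain ⟨hp, hs⟩ := hx
    have p0 := hp 0; have p1 := hp 1; have p2 := hp 2; have p3 := hp 3; have p4 := hp 4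
    have := h.c t (x 0) (x 0 + x 2 + x 3) (x 0 + x 2)
      ⟨by linarith, by linarith, by linarith, by linarith, by linarith, by linarith⟩
    simp only [ev3, h0, add_zero]
    rw [this]
    congr 1
    simp
    linarith
  · intro t x hx h0
    obtain ⟨hp, hs⟩ := hx
    have p0 := hp 0; have p1 := hp 1; have p2 := hp 2; have p3 := hp 3; have p4 := hp 4
    have := h.m t (x 0) (x 0 + x 1) (x 0 + x 1 + x 2)
      ⟨by linarith, by linarith, by linarith, by linarith, by linarith, by linarith⟩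
    simp only [ev3, h0, add_zero]
    exact this
  · intro t x hx h0
    obtain ⟨hp, hs⟩ := hx
    have p0 := hp 0; have p1 := hp 1; have p2 := hp 2; have p3 := hp 3; have p4 := hp 4
    have := h.m t (x 0) (x 0 + x 1 + x 3) (x 0 + x 1)
      ⟨by linarith, by linarith, by linarith, by linarith, by linarith, by linarith⟩
    simp only [ev3, h0, add_zero]
    exact this

end B3
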