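import Pool.Agent.Lib_MP_55d5ef_b3.Att

/-!
# `MP_55d5ef_gt`, level B, step B3: the homeomorphism of the complements

`Rad h k`: `h f : [0,1] → [f,1]` increasing bijections (`f < 1`), `k` their inverses, continuous.
`phi : XN → XC` maps the complement of the core of `D² × T²` homeomorphically onto the complement
of the cone point.
-/

open Fl49 Topology

namespace B3

variable {R : Type} {numR : R → Fin 5 → ℕ} {odR : R → Fin 5 → List (Fin 5)}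

/-! ### parameters of a point of a record -/

/-- the parameters of the point `x` of the simplex with word `k` -/
def prm (k : Fin 6) (x : Fin 5 → ℝ) : ℝ × ℝ × ℝ × ℝ := ev6 (fun a b c d => (a, b, c, d)) k x

/-- the same for the cone -/
def prmC (k : Fin 3) (x : Fin 5 → ℝ) : ℝ × ℝ × ℝ × ℝ := ev3 (fun a b c d => (a, b, c, d)) k x

theorem ev6_prm {Y : Type*} (g : ℝ → ℝ → ℝ → ℝ → Y) (k : Fin 6) (x : Fin 5 → ℝ) :
    ev6 g k x = g (prm k x).1 (prm k x).2.1 (prm k x).2.2.1 (prm k x).2.2.2 := by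
  fin_cases k <;> rfl

theorem ev3_prm {Y : Type*} (g : ℝ → ℝ → ℝ → ℝ → Y) (k : Fin 3) (x : Fin 5 → ℝ) :
    ev3 g k x = g (prmC k x).1 (prmC k x).2.1 (prmC k x).2.2.1 (prmC k x).2.2.2 := by
  fin_cases k <;> rfl

theorem prm_ok (k : Fin 6) {x : Fin 5 → ℝ} (hx : x ∈ Sx) :
    Ok (prm k x).1 (prm k x).2.1 (prm k x).2.2.1 (prm k x).2.2.2 := by
  obtain ⟨hp, hs⟩ := hx
  have p0 := hp 0; have p1 := hp 1; have p2 := hp 2; have p3 := hp 3; have p4 := hp 4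
  fin_cases k <;> refine ⟨?_, ?_, ?_, ?_, ?_, ?_⟩ <;> simp only [prm, ev6] <;> linarith

theorem prmC_ok (k : Fin 3) {x : Fin 5 → ℝ} (hx : x ∈ Sx) :
    OkC (prmC k x).1 (prmC k x).2.1 (prmC k x).2.2.1 (prmC k x).2.2.2 := by
  obtain ⟨hp, hs⟩ := hx
  have p0 := hp 0; have p1 := hp 1; have p2 := hp 2; have p3 := hp 3; have p4 := hp 4
  fin_cases k <;> refine ⟨?_, ?_, ?_, ?_, ?_, ?_⟩ <;> simp only [prmC, ev3] <;> linarith

theorem prm_cont (k : Fin 6) : Continuous (prm k) := by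
  fin_cases k
  · exact (by fun_prop : Continuous fun x : Fin 5 → ℝ =>
      (x 0, x 0 + x 1, x 0 + x 1 + x 2, x 0 + x 1 + x 2 + x 3))
  · exact (by fun_prop : Continuous fun x : Fin 5 → ℝ =>
      (x 0, x 0 + x 1 + x 2, x 0 + x 1, x 0 + x 1 + x 2 + x 3))
  · exact (by fun_prop : Continuous fun x : Fin 5 → ℝ =>
      (x 0, x 0 + x 1 + x 2 + x 3, x 0 + x 1, x 0 + x 1 + x 2))
  · exact (by fun_prop : Continuous fun x : Fin 5 → ℝ =>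
      (x 0 + x 1, x 0 + x 1 + x 2, x 0, x 0 + x 1 + x 2 + x 3))
  · exact (by fun_prop : Continuous fun x : Fin 5 → ℝ =>
      (x 0 + x 1, x 0 + x 1 + x 2 + x 3, x 0, x 0 + x 1 + x 2))
  · exact (by fun_prop : Continuous fun x : Fin 5 → ℝ =>
      (x 0 + x 1 + x 2, x 0 + x 1 + x 2 + x 3, x 0, x 0 + x 1))

theorem prmC_cont (k : Fin 3) : Continuous (prmC k) := by
  fin_cases k
  · exact (by fun_prop : Continuous fun x : Fin 5 → ℝ =>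
      (x 0, x 0 + x 1, x 0 + x 1 + x 2, x 0 + x 1 + x 2 + x 3))
  · exact (by fun_prop : Continuous fun x : Fin 5 → ℝ =>
      (x 0, x 0 + x 1 + x 2, x 0 + x 1, x 0 + x 1 + x 2 + x 3))
  · exact (by fun_prop : Continuous fun x : Fin 5 → ℝ =>
      (x 0, x 0 + x 1 + x 2 + x 3, x 0 + x 1, x 0 + x 1 + x 2))

theorem prmC_fst (k : Fin 3) (x : Fin 5 → ℝ) : (prmC k x).1 = x 0 := by
  fin_cases k <;> rfl

/-! ### continuity of the parametrizations -/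

theorem dif_cont : Continuous fun p : ℝ × ℝ × ℝ × ℝ => dif p.1 p.2.1 p.2.2.1 p.2.2.2 := by
  refine continuous_pi fun i => ?_
  fin_cases i <;> simp only [dif] <;> simp <;> fun_prop

theorem OkC_iff {a b c d : ℝ} : OkC a b c d ↔ 0 ≤ a ∧ a ≤ b ∧ b ≤ 1 ∧ a ≤ c ∧ c ≤ d ∧ d ≤ 1 :=
  ⟨fun h => ⟨h.a0, h.a1, h.a2, h.b0, h.b1, h.b2⟩, fun h => ⟨h.1, h.2.1, h.2.2.1, h.2.2.2.1,
    h.2.2.2.2.1, h.2.2.2.2.2⟩⟩

theorem Ok_iff {a b c d : ℝ} : Ok a b c d ↔ 0 ≤ a ∧ a ≤ b ∧ b ≤ 1 ∧ 0 ≤ c ∧ c ≤ d ∧ d ≤ 1 :=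
  ⟨fun h => ⟨h.a0, h.a1, h.a2, h.b0, h.b1, h.b2⟩, fun h => ⟨h.1, h.2.1, h.2.2.1, h.2.2.2.1,
    h.2.2.2.2.1, h.2.2.2.2.2⟩⟩

/-- the closed parameter domain -/
def DK : Set (ℝ × ℝ × ℝ × ℝ) := {p | Ok p.1 p.2.1 p.2.2.1 p.2.2.2}
/-- the closed parameter domain of the cone -/
def DC : Set (ℝ × ℝ × ℝ × ℝ) := {p | OkC p.1 p.2.1 p.2.2.1 p.2.2.2}

theorem isClosed_DK : IsClosed DK := by
  unfold DK
  simp only [Ok_iff, Set.ofPred_and]
  exact IsClosed.inter (isClosed_le (by fun_prop) (by fun_prop))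
    (IsClosed.inter (isClosed_le (by fun_prop) (by fun_prop))
    (IsClosed.inter (isClosed_le (by fun_prop) (by fun_prop))
    (IsClosed.inter (isClosed_le (by fun_prop) (by fun_prop))
    (IsClosed.inter (isClosed_le (by fun_prop) (by fun_prop))
    (isClosed_le (by fun_prop) (by fun_prop))))))

theorem isClosed_DC : IsClosed DC := by
  unfold DC
  simp only [OkC_iff, Set.ofPred_and]
  exact IsClosed.inter (isClosed_le (by fun_prop) (by fun_prop))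
    (IsClosed.inter (isClosed_le (by fun_prop) (by fun_prop))
    (IsClosed.inter (isClosed_le (by fun_prop) (by fun_prop))
    (IsClosed.inter (isClosed_le (by fun_prop) (by fun_prop))
    (IsClosed.inter (isClosed_le (by fun_prop) (by fun_prop))
    (isClosed_le (by fun_prop) (by fun_prop))))))

/-- a permutation of the parameters followed by `dif`, on a closed set where the values agree -/
theorem piece {X : Type*} [TopologicalSpace X] {F : ℝ × ℝ × ℝ × ℝ → X} {c : (Fin 5 → ℝ) → X}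
    (hc : ContinuousOn c Sx) {u : ℝ × ℝ × ℝ × ℝ → ℝ × ℝ × ℝ × ℝ} (hu : Continuous u)
    {S : Set (ℝ × ℝ × ℝ × ℝ)}
    (hm : ∀ p ∈ S, dif (u p).1 (u p).2.1 (u p).2.2.1 (u p).2.2.2 ∈ Sx)
    (he : ∀ p ∈ S, F p = c (dif (u p).1 (u p).2.1 (u p).2.2.1 (u p).2.2.2)) :
    ContinuousOn F S := by
  have h : ContinuousOn (fun p => c (dif (u p).1 (u p).2.1 (u p).2.2.1 (u p).2.2.2)) S :=
    hc.comp (dif_cont.comp hu).continuousOn hm
  exact h.congr he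

theorem PC_cont {X : Type*} [TopologicalSpace X] {ch : Fin 2 → Fin 3 → (Fin 5 → ℝ) → X}
    (hk : SGlue ch) (hc : ∀ t k, ContinuousOn (ch t k) Sx) (t : Fin 2) :
    ContinuousOn (fun p : ℝ × ℝ × ℝ × ℝ => PC ch t p.1 p.2.1 p.2.2.1 p.2.2.2) DC := by
  have hS : DC = (DC ∩ {p | p.2.1 ≤ p.2.2.1}) ∪ ((DC ∩ {p | p.2.2.1 ≤ p.2.1 ∧ p.2.1 ≤ p.2.2.2}) ∪
      (DC ∩ {p | p.2.2.2 ≤ p.2.1})) := by
    ext p
    simp only [Set.mem_union, Set.mem_inter_iff, Set.mem_ofPred_eq]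
    have := cases3 p.2.1 p.2.2.1 p.2.2.2
    tauto
  have c1 : IsClosed (DC ∩ {p : ℝ × ℝ × ℝ × ℝ | p.2.1 ≤ p.2.2.1}) :=
    isClosed_DC.inter (isClosed_le (by fun_prop) (by fun_prop))
  have c2 : IsClosed (DC ∩ {p : ℝ × ℝ × ℝ × ℝ | p.2.2.1 ≤ p.2.1 ∧ p.2.1 ≤ p.2.2.2}) :=
    isClosed_DC.inter ((isClosed_le (by fun_prop) (by fun_prop)).and
      (isClosed_le (by fun_prop) (by fun_prop)))
  have c3 : IsClosed (DC ∩ {p : ℝ × ℝ × ℝ × ℝ | p.2.2.2 ≤ p.2.1}) :=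
    isClosed_DC.inter (isClosed_le (by fun_prop) (by fun_prop))
  rw [hS]
  refine ContinuousOn.union_of_isClosed ?_ (ContinuousOn.union_of_isClosed ?_ ?_ c2 c3) c1
    (c2.union c3)
  · refine piece (hc t 0) (u := fun p => (p.1, p.2.1, p.2.2.1, p.2.2.2)) (by fun_prop) ?_ ?_
    · rintro p ⟨⟨a0, a1, a2, b0, b1, b2⟩, h⟩
      exact dif_mem a0 a1 h b1 b2
    · rintro p ⟨_, h⟩
      exact PC0 h
  · refine piece (hc t 1) (u := fun p => (p.1, p.2.2.1, p.2.1, p.2.2.2)) (by fun_prop) ?_ ?_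
    · rintro p ⟨⟨a0, a1, a2, b0, b1, b2⟩, h⟩
      exact dif_mem a0 b0 h.1 h.2 b2
    · rintro p ⟨h0, h⟩
      exact PC1 hk h0 h.1 h.2
  · refine piece (hc t 2) (u := fun p => (p.1, p.2.2.1, p.2.2.2, p.2.1)) (by fun_prop) ?_ ?_
    · rintro p ⟨⟨a0, a1, a2, b0, b1, b2⟩, h⟩
      exact dif_mem a0 b0 b1 h a2
    · rintro p ⟨h0, h⟩
      exact PC2 hk h0 h

theorem PN_cont {X : Type*} [TopologicalSpace X] {ch : Fin 2 → Fin 6 → (Fin 5 → ℝ) → X}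
    (hk : KGlue ch) (hc : ∀ t k, ContinuousOn (ch t k) Sx) (t : Fin 2) :
    ContinuousOn (fun p : ℝ × ℝ × ℝ × ℝ => PN ch t p.1 p.2.1 p.2.2.1 p.2.2.2) DK := by
  have hS : DK = (DK ∩ {p | p.2.1 ≤ p.2.2.1}) ∪
      ((DK ∩ {p | p.1 ≤ p.2.2.1 ∧ p.2.2.1 ≤ p.2.1 ∧ p.2.1 ≤ p.2.2.2}) ∪
      ((DK ∩ {p | p.1 ≤ p.2.2.1 ∧ p.2.2.2 ≤ p.2.1}) ∪
      ((DK ∩ {p | p.2.2.1 ≤ p.1 ∧ p.2.1 ≤ p.2.2.2}) ∪
      ((DK ∩ {p | p.2.2.1 ≤ p.1 ∧ p.1 ≤ p.2.2.2 ∧ p.2.2.2 ≤ p.2.1}) ∪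
      (DK ∩ {p | p.2.2.2 ≤ p.1}))))) := by
    ext p
    simp only [Set.mem_union, Set.mem_inter_iff, Set.mem_ofPred_eq]
    have := cases6 p.1 p.2.1 p.2.2.1 p.2.2.2
    tauto
  have c1 : IsClosed (DK ∩ {p : ℝ × ℝ × ℝ × ℝ | p.2.1 ≤ p.2.2.1}) :=
    isClosed_DK.inter (isClosed_le (by fun_prop) (by fun_prop))
  have c2 : IsClosed (DK ∩ {p : ℝ × ℝ × ℝ × ℝ |
      p.1 ≤ p.2.2.1 ∧ p.2.2.1 ≤ p.2.1 ∧ p.2.1 ≤ p.2.2.2}) :=
    isClosed_DK.inter ((isClosed_le (by fun_prop) (by fun_prop)).and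
      ((isClosed_le (by fun_prop) (by fun_prop)).and (isClosed_le (by fun_prop) (by fun_prop))))
  have c3 : IsClosed (DK ∩ {p : ℝ × ℝ × ℝ × ℝ | p.1 ≤ p.2.2.1 ∧ p.2.2.2 ≤ p.2.1}) :=
    isClosed_DK.inter ((isClosed_le (by fun_prop) (by fun_prop)).and
      (isClosed_le (by fun_prop) (by fun_prop)))
  have c4 : IsClosed (DK ∩ {p : ℝ × ℝ × ℝ × ℝ | p.2.2.1 ≤ p.1 ∧ p.2.1 ≤ p.2.2.2}) :=
    isClosed_DK.inter ((isClosed_le (by fun_prop) (by fun_prop)).and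
      (isClosed_le (by fun_prop) (by fun_prop)))
  have c5 : IsClosed (DK ∩ {p : ℝ × ℝ × ℝ × ℝ |
      p.2.2.1 ≤ p.1 ∧ p.1 ≤ p.2.2.2 ∧ p.2.2.2 ≤ p.2.1}) :=
    isClosed_DK.inter ((isClosed_le (by fun_prop) (by fun_prop)).and
      ((isClosed_le (by fun_prop) (by fun_prop)).and (isClosed_le (by fun_prop) (by fun_prop))))
  have c6 : IsClosed (DK ∩ {p : ℝ × ℝ × ℝ × ℝ | p.2.2.2 ≤ p.1}) :=
    isClosed_DK.inter (isClosed_le (by fun_prop) (by fun_prop))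
  rw [hS]
  refine ContinuousOn.union_of_isClosed ?_ (ContinuousOn.union_of_isClosed ?_
    (ContinuousOn.union_of_isClosed ?_ (ContinuousOn.union_of_isClosed ?_
    (ContinuousOn.union_of_isClosed ?_ ?_ c5 c6) c4 (c5.union c6)) c3
    (c4.union (c5.union c6))) c2 (c3.union (c4.union (c5.union c6)))) c1
    (c2.union (c3.union (c4.union (c5.union c6))))
  · refine piece (hc t 0) (u := fun p => (p.1, p.2.1, p.2.2.1, p.2.2.2)) (by fun_prop) ?_ ?_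
    · rintro p ⟨⟨a0, a1, a2, b0, b1, b2⟩, h⟩
      exact dif_mem a0 a1 h b1 b2
    · rintro p ⟨h0, h⟩
      exact PN0 h0 h
  · refine piece (hc t 1) (u := fun p => (p.1, p.2.2.1, p.2.1, p.2.2.2)) (by fun_prop) ?_ ?_
    · rintro p ⟨⟨a0, a1, a2, b0, b1, b2⟩, h⟩
      exact dif_mem a0 h.1 h.2.1 h.2.2 b2
    · rintro p ⟨h0, h⟩
      exact PN1 hk h0 h.1 h.2.1 h.2.2
  · refine piece (hc t 2) (u := fun p => (p.1, p.2.2.1, p.2.2.2, p.2.1)) (by fun_prop) ?_ ?_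
    · rintro p ⟨⟨a0, a1, a2, b0, b1, b2⟩, h⟩
      exact dif_mem a0 h.1 b1 h.2 a2
    · rintro p ⟨h0, h⟩
      exact PN2 hk h0 h.1 h.2
  · refine piece (hc t 3) (u := fun p => (p.2.2.1, p.1, p.2.1, p.2.2.2)) (by fun_prop) ?_ ?_
    · rintro p ⟨⟨a0, a1, a2, b0, b1, b2⟩, h⟩
      exact dif_mem b0 h.1 a1 h.2 b2
    · rintro p ⟨h0, h⟩
      exact PN3 hk h0 h.1 h.2
  · refine piece (hc t 4) (u := fun p => (p.2.2.1, p.1, p.2.2.2, p.2.1)) (by fun_prop) ?_ ?_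
    · rintro p ⟨⟨a0, a1, a2, b0, b1, b2⟩, h⟩
      exact dif_mem b0 h.1 h.2.1 h.2.2 a2
    · rintro p ⟨h0, h⟩
      exact PN4 hk h0 h.1 h.2.1 h.2.2
  · refine piece (hc t 5) (u := fun p => (p.2.2.1, p.2.2.2, p.1, p.2.1)) (by fun_prop) ?_ ?_
    · rintro p ⟨⟨a0, a1, a2, b0, b1, b2⟩, h⟩
      exact dif_mem b0 b1 h a1 a2
    · rintro p ⟨h0, h⟩
      exact PN5 hk h0 h

theorem cp_cont {ρ : Type} {num : ρ → Fin 5 → ℕ} {od : ρ → Fin 5 → List (Fin 5)} (i : ρ) :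
    ContinuousOn (cp num od i) Sx := by
  rw [continuousOn_iff_continuous_domRestrict]
  have : Sx.domRestrict (cp num od i) = fun x : Sx => (Quot.mk _
      (⟨⟨i, Set.mem_univ i⟩, ⟨x.1, mem_Dl.2 x.2⟩⟩ : Z (lab5 (ρ := ρ)) Set.univ) :
      Fl49.X (lab5 (ρ := ρ)) num od Set.univ) := by
    funext x
    exact cp_of i x.2
  rw [this]
  exact continuous_quot_mk.comp (continuous_sigmaMk.comp (continuous_subtype_val.subtype_mk _))

end B3
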